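import Mathlib

/-!
# Points of a coset of a lattice in a triangle
-/

set_option autoImplicit false

namespace H90.TV

/-- the sum of a coordinate over a finite set which is invariant under a shift -/
theorem sum_of_shift {α : Type} (T : Finset α) (s : α → α) (hs : ∀ a ∈ T, s a ∈ T)
    (hinj : ∀ a ∈ T, ∀ b ∈ T, s a = s b → a = b) (g : α → ℤ) (e : ℤ)
    (h0 : ∀ a ∈ T, 0 ≤ g a ∧ g a < e) (hg : ∀ a ∈ T, g (s a) = (g a + 1) % e) :
    2 * ∑ a ∈ T, g a = T.card * (e - 1) := by
  classical
  have himg : T.image s = T := by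
    apply Finset.eq_of_subset_of_card_le
    · intro a ha
      obtain ⟨b, hb, rfl⟩ := Finset.mem_image.1 ha
      exact hs b hb
    · rw [Finset.card_image_of_injOn fun a ha b hb h => hinj a ha b hb h]
  have hsum : ∀ F : ℤ → ℤ, ∑ a ∈ T, F (g (s a)) = ∑ a ∈ T, F (g a) := by
    intro F
    conv_rhs => rw [← himg]
    rw [Finset.sum_image fun a ha b hb h => hinj a ha b hb h]
  set W := T.filter fun a => g a = e - 1 with hW
  have hval : ∀ a ∈ T, g (s a) = g a + 1 - if g a = e - 1 then e else 0 := by
    intro a ha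
    rw [hg a ha]
    have h1 := h0 a ha
    split_ifs with h2
    · rw [h2, show e - 1 + 1 = e by ring, Int.emod_self]
      ring
    · rw [Int.emod_eq_of_lt (by omega) (by omega)]
      ring
  have hcount : (T.card : ℤ) = W.card * e := by
    have h1 := hsum id
    simp only [id] at h1
    rw [Finset.sum_congr rfl hval, Finset.sum_sub_distrib, Finset.sum_add_distrib,
      ← Finset.sum_filter, Finset.sum_const, Finset.sum_const] at h1
    simp only [nsmul_eq_mul, mul_one] at h1
    linarith
  have h2 := hsum fun x => x ^ 2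
  have h3 : ∑ a ∈ T, g (s a) ^ 2 = ∑ a ∈ T, (g a + 1) ^ 2 - W.card * e ^ 2 := by
    have h4 : ∀ a ∈ T, g (s a) ^ 2 = (g a + 1) ^ 2 - if g a = e - 1 then e ^ 2 else 0 := by
      intro a ha
      rw [hval a ha]
      split_ifs with h5
      · rw [h5]; ring
      · ring
    rw [Finset.sum_congr rfl h4, Finset.sum_sub_distrib, ← Finset.sum_filter, Finset.sum_const,
      nsmul_eq_mul]
  rw [h3] at h2
  have h5 : ∑ a ∈ T, (g a + 1) ^ 2 = ∑ a ∈ T, g a ^ 2 + 2 * ∑ a ∈ T, g a + T.card := by
    rw [Finset.mul_sum, ← Finset.sum_add_distrib]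
    have : (T.card : ℤ) = ∑ a ∈ T, (1 : ℤ) := by simp
    rw [this, ← Finset.sum_add_distrib]
    exact Finset.sum_congr rfl fun a _ => by ring
  rw [h5] at h2
  have h6 : (W.card : ℤ) * e ^ 2 = T.card * e := by rw [hcount]; ring
  rw [h6] at h2
  linarith

variable {M : Type} [AddCommGroup M]

/-- The degree. -/
def dg (e : Fin 3 → ℤ) (a : Fin 3 → ℤ) : ℚ := ∑ j, (a j : ℚ) / e j

theorem dg_add (e a b : Fin 3 → ℤ) : dg e (a + b) = dg e a + dg e b := by
  simp only [dg, Pi.add_apply, Int.cast_add, add_div, Finset.sum_add_distrib]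

/-- A class of sufficiently large degree contains a monomial. -/
theorem exists_monomial (π : M →+ (Fin 3 → ℤ)) (e : Fin 3 → ℤ) (he : ∀ j, 1 ≤ e j)
    (E1 : ∀ j, ∃ x, π x = Pi.single j (e j) - Pi.single 0 (e 0)) (E2 : ∀ j, ∃ x, π x j = 1)
    (E3 : ∀ x, dg e (π x) = 0) (w : Fin 3 → ℤ)
    (hw : 1 - ∑ j, 1 / (e j : ℚ) < 2 * dg e w) : ∃ x, ∀ j, 0 ≤ w j + π x j := by
  classical
  by_contra hcon
  push Not at hcon
  have he0 : ∀ j, (e j : ℚ) ≠ 0 := fun j => by
    have := he j
    exact_mod_cast (show e j ≠ 0 by omega)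
  let P : (Fin 3 → ℤ) → Prop := fun a => ∃ (x : M) (k : ℤ), a = w + π x + Pi.single 0 (k * e 0)
  let box : Finset (Fin 3 → ℤ) := Fintype.piFinset fun j => Finset.Ico 0 (e j)
  have hbox : ∀ a, a ∈ box ↔ ∀ j, 0 ≤ a j ∧ a j < e j := fun a => by
    simp [box, Fintype.mem_piFinset]
  let T := box.filter P
  have hT : ∀ a, a ∈ T ↔ (∀ j, 0 ≤ a j ∧ a j < e j) ∧ P a := fun a => by
    simp only [T, Finset.mem_filter, hbox]
  -- reduction modulo `e`
  have hred : ∀ a, P a → P fun j => a j % e j := by
    rintro a ⟨x, k, hx⟩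
    choose y hy using E1
    refine ⟨x - ∑ j, (a j / e j) • y j, k - ∑ j, a j / e j, ?_⟩
    funext l
    have h1 : a l % e l = a l - e l * (a l / e l) := by
      have := Int.emod_add_mul_ediv (a l) (e l); linarith
    show a l % e l = _
    rw [h1, map_sub, map_sum]
    simp only [map_zsmul, hy, Pi.add_apply, Pi.sub_apply, Pi.smul_apply,
      smul_eq_mul, Fin.sum_univ_three]
    conv_lhs => rw [hx]
    rw [hx]
    fin_cases l <;> simp <;> ring
  have hne : T.Nonempty := by
    refine ⟨fun j => w j % e j, (hT _).2 ⟨fun j => ⟨Int.emod_nonneg _ ?_, Int.emod_lt_of_pos _ ?_⟩,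
      hred w ⟨0, 0, by simp⟩⟩⟩
    · have := he j; omega
    · have := he j; omega
  have hdeg : ∀ a ∈ T, dg e w + 1 ≤ dg e a := by
    intro a ha
    obtain ⟨h1, x, k, hx⟩ := (hT a).1 ha
    have hs : dg e (Pi.single 0 (k * e 0)) = k := by
      simp only [dg, Fin.sum_univ_three]
      simp
      rw [mul_div_assoc, div_self (he0 0), mul_one]
    have h2 : dg e a = dg e w + k := by
      rw [hx, dg_add, dg_add, E3, hs, add_zero]
    have h3 : 1 ≤ k := by
      by_contra hk
      obtain ⟨j, hj⟩ := hcon x
      have h4 := (h1 j).1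
      rw [hx] at h4
      simp only [Pi.add_apply] at h4
      have h5 : (Pi.single 0 (k * e 0) : Fin 3 → ℤ) j ≤ 0 := by
        by_cases hj0 : j = 0
        · subst hj0
          rw [Pi.single_eq_same]
          have := he 0
          nlinarith
        · rw [Pi.single_eq_of_ne hj0]
      linarith
    rw [h2]
    have h6 : (1 : ℚ) ≤ k := by exact_mod_cast h3
    linarith
  have hsumj : ∀ j, 2 * ∑ a ∈ T, a j = T.card * (e j - 1) := by
    intro j
    obtain ⟨x, hx⟩ := E2 j
    refine sum_of_shift T (fun a l => (a l + π x l) % e l) ?_ ?_ (fun a => a j) (e j) ?_ ?_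
    · intro a ha
      obtain ⟨h1, y, k, hy⟩ := (hT a).1 ha
      refine (hT _).2 ⟨fun l => ⟨Int.emod_nonneg _ ?_, Int.emod_lt_of_pos _ ?_⟩,
        hred (a + π x) ⟨y + x, k, ?_⟩⟩
      · have := he l; omega
      · have := he l; omega
      · rw [hy, map_add]; abel
    · intro a ha b hb hab
      obtain ⟨h1, -⟩ := (hT a).1 ha
      obtain ⟨h2, -⟩ := (hT b).1 hb
      funext l
      have h3 : (a l + π x l) % e l = (b l + π x l) % e l := congrFun hab l
      have h4 : a l % e l = b l % e l := Int.ModEq.add_right_cancel' _ h3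
      rwa [Int.emod_eq_of_lt (h1 l).1 (h1 l).2, Int.emod_eq_of_lt (h2 l).1 (h2 l).2] at h4
    · intro a ha
      exact ((hT a).1 ha).1 j
    · intro a _
      show (a j + π x j) % e j = (a j + 1) % e j
      rw [hx]
  have htot : 2 * ∑ a ∈ T, dg e a = T.card * (3 - ∑ j, 1 / (e j : ℚ)) := by
    have h1 : ∑ a ∈ T, dg e a = ∑ j, (∑ a ∈ T, (a j : ℚ)) / e j := by
      simp only [dg]
      rw [Finset.sum_comm]
      exact Finset.sum_congr rfl fun j _ => by rw [Finset.sum_div]
    have h2 : ∀ j, (∑ a ∈ T, (a j : ℚ)) = T.card * (e j - 1) / 2 := by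
      intro j
      have h3 := hsumj j
      have h4 : (2 : ℚ) * ∑ a ∈ T, (a j : ℚ) = T.card * (e j - 1) := by exact_mod_cast h3
      linarith
    rw [h1]
    simp only [h2, Fin.sum_univ_three]
    field_simp [he0 0, he0 1, he0 2]
    ring
  have h1 : ∑ a ∈ T, (dg e w + 1) ≤ ∑ a ∈ T, dg e a := Finset.sum_le_sum hdeg
  rw [Finset.sum_const, nsmul_eq_mul] at h1
  have h2 : (0 : ℚ) < T.card := by exact_mod_cast hne.card_pos
  have h3 : (T.card : ℚ) * (2 * (dg e w + 1)) ≤ T.card * (3 - ∑ j, 1 / (e j : ℚ)) := by
    rw [← htot]; linarith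
  have h4 := le_of_mul_le_mul_left h3 h2
  linarith

/-- **The coset points in a triangle generate.** -/
theorem triangle (π : M →+ (Fin 3 → ℤ)) (e : Fin 3 → ℤ) (he : ∀ j, 1 ≤ e j)
    (E1 : ∀ j, ∃ x, π x = Pi.single j (e j) - Pi.single 0 (e 0)) (E2 : ∀ j, ∃ x, π x j = 1)
    (E3 : ∀ x, dg e (π x) = 0) (β : Fin 3 → ℤ) (hβ : 1 ≤ dg e β) (K : AddSubgroup M)
    (hK : ∀ x y, (∀ j, 0 ≤ β j + π x j) → (∀ j, 0 ≤ β j + π y j) → x - y ∈ K) (m : M) :
    m ∈ K := by
  classical
  have he0 : ∀ j, (0 : ℚ) < e j := fun j => by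
    have := he j
    exact_mod_cast (show 0 < e j by omega)
  set g : ℚ := (1 - ∑ j, 1 / (e j : ℚ)) / 2 with hg
  have hex : ∀ w : Fin 3 → ℤ, g < dg e w → ∃ x, ∀ j, 0 ≤ w j + π x j := fun w hw =>
    exists_monomial π e he E1 E2 E3 w (by linarith)
  -- the window
  let Win : (Fin 3 → ℤ) → Prop := fun a => g < dg e a ∧ g < dg e β - dg e a
  have hneg : ∀ a, dg e (β - a) = dg e β - dg e a := fun a => by
    have h1 := dg_add e (β - a) a
    rw [sub_add_cancel] at h1
    linarith
  -- monomials of the same class in the window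
  have hwell : ∀ a, Win a → ∀ x y, (∀ j, 0 ≤ a j + π x j) → (∀ j, 0 ≤ a j + π y j) →
      x - y ∈ K := by
    intro a ha x y hx hy
    obtain ⟨z, hz⟩ := hex (β - a) (by rw [hneg]; exact ha.2)
    have h1 := hK (x + z) (y + z) (fun j => by
      have h2 := hx j
      have h3 := hz j
      simp only [Pi.sub_apply, map_add, Pi.add_apply] at h3 ⊢
      linarith) (fun j => by
      have h2 := hy j
      have h3 := hz j
      simp only [Pi.sub_apply, map_add, Pi.add_apply] at h3 ⊢
      linarith)
    have h2 : x + z - (y + z) = x - y := by abel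
    rwa [h2] at h1
  -- one step
  have hstep : ∀ a, Win a → ∀ j, Win (a + Pi.single j 1) → ∀ x y, (∀ l, 0 ≤ a l + π x l) →
      (∀ l, 0 ≤ (a + Pi.single j 1 : Fin 3 → ℤ) l + π y l) → x - y ∈ K := by
    intro a _ j haj x y hx hy
    refine hwell _ haj x y (fun l => ?_) hy
    have h1 := hx l
    have h2 : (0 : ℤ) ≤ (Pi.single j 1 : Fin 3 → ℤ) l := by
      by_cases h : l = j
      · subst h; simp
      · simp [Pi.single_eq_of_ne h]
    simp only [Pi.add_apply]
    linarith
  have hds : ∀ j, dg e (Pi.single j 1) = 1 / e j := fun j => by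
    simp only [dg]
    rw [Finset.sum_eq_single j]
    · simp
    · intro l _ hl; simp [Pi.single_eq_of_ne hl]
    · simp
  have hpos : ∀ j, (0 : ℚ) < 1 / e j := fun j => by have := he0 j; positivity
  -- paths
  have hpath : ∀ n : ℕ, ∀ a b : Fin 3 → ℤ, Win a → Win b → (∑ j, (b j - a j).natAbs = n) →
      ∀ x y, (∀ l, 0 ≤ a l + π x l) → (∀ l, 0 ≤ b l + π y l) → x - y ∈ K := by
    intro n
    induction n with
    | zero =>
      intro a b ha _ hab x y hx hy
      have h1 : a = b := by
        funext j
        have h2 := (Finset.sum_eq_zero_iff.1 hab) j (Finset.mem_univ j)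
        omega
      subst h1
      exact hwell a ha x y hx hy
    | succ n ih =>
      intro a b ha hb hab x y hx hy
      -- a step in the positive direction
      have hplus : ∀ j, 0 < b j - a j → Win (a + Pi.single j 1) → x - y ∈ K := by
        intro j hj hw
        obtain ⟨z, hz⟩ := hex _ hw.1
        have h1 := hstep a ha j hw x z hx hz
        have h2 := ih (a + Pi.single j 1) b hw hb (by
          have h3 : ∑ l, (b l - a l).natAbs = ∑ l, ((b l - (a + Pi.single j 1 : Fin 3 → ℤ) l).natAbs +
              if l = j then 1 else 0) := by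
            refine Finset.sum_congr rfl fun l _ => ?_
            simp only [Pi.add_apply]
            by_cases h : l = j
            · subst h
              simp only [Pi.single_eq_same, if_true]
              omega
            · simp only [Pi.single_eq_of_ne h, if_neg h, add_zero]
          rw [Finset.sum_add_distrib, Finset.sum_ite_eq' Finset.univ j] at h3
          simp only [Finset.mem_univ, if_true] at h3
          omega) z y hz hy
        have h3 := K.add_mem h1 h2
        have h4 : x - z + (z - y) = x - y := by abel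
        rwa [h4] at h3
      have hminus : ∀ j, b j - a j < 0 → Win (a - Pi.single j 1) → x - y ∈ K := by
        intro j hj hw
        obtain ⟨z, hz⟩ := hex _ hw.1
        have haa : a - Pi.single j 1 + Pi.single j 1 = a := by abel
        have h1 := hstep (a - Pi.single j 1) hw j (by rw [haa]; exact ha) z x hz (by
          rw [haa]; exact hx)
        have h2 := ih (a - Pi.single j 1) b hw hb (by
          have h3 : ∑ l, (b l - a l).natAbs = ∑ l, ((b l - (a - Pi.single j 1 : Fin 3 → ℤ) l).natAbs +
              if l = j then 1 else 0) := by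
            refine Finset.sum_congr rfl fun l _ => ?_
            simp only [Pi.sub_apply]
            by_cases h : l = j
            · subst h
              simp only [Pi.single_eq_same, if_true]
              omega
            · simp only [Pi.single_eq_of_ne h, if_neg h, add_zero, sub_zero]
          rw [Finset.sum_add_distrib, Finset.sum_ite_eq' Finset.univ j] at h3
          simp only [Finset.mem_univ, if_true] at h3
          omega) z y hz hy
        have h3 := K.add_mem (K.neg_mem h1) h2
        have h4 : -(z - x) + (z - y) = x - y := by abel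
        rwa [h4] at h3
      have hda : ∀ j, dg e (a + Pi.single j 1) = dg e a + 1 / e j := fun j => by
        rw [dg_add, hds]
      have hds' : ∀ j, dg e (a - Pi.single j 1) = dg e a - 1 / e j := fun j => by
        have h1 := dg_add e (a - Pi.single j 1) (Pi.single j 1)
        rw [sub_add_cancel, hds] at h1
        linarith
      have hdiff : dg e b - dg e a = ∑ j, ((b j - a j : ℤ) : ℚ) / e j := by
        simp only [dg, ← Finset.sum_sub_distrib]
        exact Finset.sum_congr rfl fun j _ => by push_cast; ring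
      -- the case distinction
      by_cases hP : ∃ j, 0 < b j - a j
      · obtain ⟨j, hj⟩ := hP
        by_cases hQ : ∃ l, b l - a l < 0
        · obtain ⟨l, hl⟩ := hQ
          by_cases h1 : Win (a + Pi.single j 1)
          · exact hplus j hj h1
          by_cases h2 : Win (a - Pi.single l 1)
          · exact hminus l hl h2
          exfalso
          have hjl : j ≠ l := by rintro rfl; omega
          have h3 : dg e β - dg e a - 1 / e j ≤ g := by
            by_contra h
            exact h1 ⟨by rw [hda]; linarith [ha.1, hpos j], by rw [hda]; linarith⟩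
          have h4 : dg e a - 1 / e l ≤ g := by
            by_contra h
            exact h2 ⟨by rw [hds']; linarith, by rw [hds']; linarith [ha.2, hpos l]⟩
          have h5 : 1 / (e j : ℚ) + 1 / e l < ∑ i, 1 / (e i : ℚ) := by
            obtain ⟨i, hi⟩ : ∃ i : Fin 3, i ≠ j ∧ i ≠ l := by
              revert hjl; clear * -; revert j l; decide
            have h6 : ∑ i, 1 / (e i : ℚ) = ∑ i ∈ ({j, l, i} : Finset (Fin 3)), 1 / (e i : ℚ) := by
              congr 1
              revert hi hjl; clear * -; revert j l i; decide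
            rw [h6, Finset.sum_insert (by simp [hjl, hi.1.symm]), Finset.sum_insert (by
              simp [hi.2.symm]), Finset.sum_singleton]
            linarith [hpos i]
          linarith
        · push Not at hQ
          apply hplus j hj
          have h1 : 1 / (e j : ℚ) ≤ dg e b - dg e a := by
            rw [hdiff]
            calc 1 / (e j : ℚ) ≤ ((b j - a j : ℤ) : ℚ) / e j := by
                  apply div_le_div_of_nonneg_right _ (he0 j).le
                  exact_mod_cast hj
              _ ≤ _ := Finset.single_le_sum (f := fun j => ((b j - a j : ℤ) : ℚ) / e j)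
                  (fun i _ => div_nonneg (by exact_mod_cast hQ i) (he0 i).le) (Finset.mem_univ j)
          exact ⟨by rw [hda]; linarith [ha.1, hpos j], by rw [hda]; linarith [hb.2]⟩
      · push Not at hP
        obtain ⟨j, hj⟩ : ∃ j, b j - a j < 0 := by
          by_contra h
          push Not at h
          have h1 : ∑ j, (b j - a j).natAbs = 0 := Finset.sum_eq_zero fun j _ => by
            have := h j; have := hP j; omega
          omega
        apply hminus j hj
        have h1 : 1 / (e j : ℚ) ≤ dg e a - dg e b := by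
          have h2 : dg e a - dg e b = ∑ j, ((a j - b j : ℤ) : ℚ) / e j := by
            simp only [dg, ← Finset.sum_sub_distrib]
            exact Finset.sum_congr rfl fun j _ => by push_cast; ring
          rw [h2]
          calc 1 / (e j : ℚ) ≤ ((a j - b j : ℤ) : ℚ) / e j := by
                apply div_le_div_of_nonneg_right _ (he0 j).le
                exact_mod_cast (show 1 ≤ a j - b j by omega)
            _ ≤ _ := Finset.single_le_sum (f := fun j => ((a j - b j : ℤ) : ℚ) / e j)
                (fun i _ => div_nonneg (by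
                  have := hP i
                  exact_mod_cast (show 0 ≤ a i - b i by omega)) (he0 i).le) (Finset.mem_univ j)
        exact ⟨by rw [hds']; linarith [hb.1], by rw [hds']; linarith [ha.2, hpos j]⟩
  -- a point in the window
  have hwin : ∃ a, Win a := by
    have hs := Fin.sum_univ_three fun j => 1 / (e j : ℚ)
    have h0 := hpos 0
    have h1 := hpos 1
    have h2 := hpos 2
    obtain ⟨n, hn1, hn2⟩ : ∃ n : ℤ, g < n * (1 / (e 0 : ℚ)) ∧ n * (1 / (e 0 : ℚ)) < dg e β - g := by
      refine ⟨⌊g / (1 / (e 0 : ℚ))⌋ + 1, ?_, ?_⟩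
      · have h3 := Int.lt_floor_add_one (g / (1 / (e 0 : ℚ)))
        rw [div_lt_iff₀ h0] at h3
        push_cast
        exact h3
      · have h3 := Int.floor_le (g / (1 / (e 0 : ℚ)))
        rw [le_div_iff₀ h0] at h3
        push_cast
        have h4 : g + 1 / (e 0 : ℚ) < dg e β - g := by linarith
        linarith
    refine ⟨Pi.single 0 n, ?_, ?_⟩
    · have h3 : dg e (Pi.single 0 n) = n * (1 / (e 0 : ℚ)) := by
        simp only [dg, Fin.sum_univ_three]
        simp [div_eq_mul_inv]
      rw [h3]; exact hn1
    · have h3 : dg e (Pi.single 0 n) = n * (1 / (e 0 : ℚ)) := by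
        simp only [dg, Fin.sum_univ_three]
        simp [div_eq_mul_inv]
      rw [h3]; linarith
  obtain ⟨a, ha⟩ := hwin
  obtain ⟨x, hx⟩ := hex a ha.1
  have hb : Win (a + π m) := by
    have h1 : dg e (a + π m) = dg e a := by rw [dg_add, E3, add_zero]
    exact ⟨by rw [h1]; exact ha.1, by rw [h1]; exact ha.2⟩
  have h1 := hpath _ a (a + π m) ha hb rfl x (x - m) hx fun l => by
    have := hx l
    simp only [Pi.add_apply, map_sub, Pi.sub_apply]
    linarith
  have h2 : x - (x - m) = m := by abel
  rwa [h2] at h1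

end H90.TV
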