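import Pool.Agent.H90.TV.Vtx

/-!
# Edges and parallelograms
-/

set_option autoImplicit false

namespace H90.TV

open H90.TF MvPolynomial

variable {ι : Type} [Fintype ι] {N : ℕ} {u : ι → Fin N → ℤ} {S : Set (Set ι)}

/-- All maximal cones which contain `τ` are singular, the corresponding fixed points are not in the
hypersurface, and the walls which contain `τ` are regular. -/
structure Sit (u : ι → Fin N → ℤ) (S : Set (Set ι)) (D : ι → ℤ) (τ : Set ι) : Prop where
  vert : ∀ ρ, IsMax S ρ → τ ⊆ ρ → ∃ α : ι → ℕ, (∀ i, α i = 0 ↔ i ∈ ρ) ∧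
    LinEquiv u (fun i => (α i : ℤ)) D
  wall : ∀ ρ, IsMax S ρ → τ ⊆ ρ → ∀ i ∈ ρ, i ∉ τ → IsRegularCone u (ρ \ {i})
  sing : ∀ ρ, IsMax S ρ → τ ⊆ ρ → ¬ IsRegularCone u ρ

/-- The edge of the polytope of `D` at the vertex of the maximal cone `ρ` given by `ρ \ {i}`. -/
structure IsEdge (u : ι → Fin N → ℤ) (D : ι → ℤ) (ρ : Set ι) (i : ι) (p : ℤ)
    (v : Fin N → ℤ) : Prop where
  two : 2 ≤ p
  zero : ∀ h ∈ ρ, h ≠ i → pr u v h = 0
  val : pr u v i = p
  dvd : ∀ m : Fin N → ℤ, (∀ h ∈ ρ, h ≠ i → pr u m h = 0) → p ∣ pr u m i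
  nonneg : ∀ j, 0 ≤ rp u ρ D j + p * xx u ρ i j

/-- the neighbour of a maximal cone -/
theorem neighbour (hS : IsFan u S) {D : ι → ℤ} (hD : IsAmpleFree u S D) {ρ : Set ι}
    (hρ : IsMax S ρ) {i : ι} (hi : i ∈ ρ) :
    ∃ i', i' ∉ ρ ∧ IsMax S (insert i' (ρ \ {i})) ∧ xx u ρ i i' < 0 := by
  classical
  obtain ⟨ρ', h1, h2, h3⟩ := hS.avoid (hS.face ρ hρ.1 (ρ \ {i}) Set.sdiff_subset)
    (ρ := i) (fun h => h.2 rfl)
  have hc := (maxData hS hρ).1
  have hc' := (maxData hS h1).1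
  have hcd : (ρ \ {i}).ncard + 1 = ρ.ncard := Set.ncard_sdiff_singleton_add_one hi (Set.toFinite _)
  have hcd' : (ρ' \ (ρ \ {i})).ncard = 1 := by
    have h4 := Set.ncard_sdiff_add_ncard_of_subset h2 (Set.toFinite ρ')
    omega
  obtain ⟨i', hi'⟩ := Set.ncard_eq_one.1 hcd'
  have hm : i' ∈ ρ' \ (ρ \ {i}) := by rw [hi']; rfl
  have hni : i' ∉ ρ := by
    intro h
    by_cases h4 : i' = i
    · subst h4; exact h3 hm.1
    · exact hm.2 ⟨h, h4⟩
  have heq : ρ' = insert i' (ρ \ {i}) := by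
    rw [← Set.union_sdiff_cancel h2, hi', Set.union_comm]
    rfl
  rw [heq] at h1
  refine ⟨i', hni, h1, ?_⟩
  -- the sign
  obtain ⟨β, hβ, m, hm2⟩ := hD _ h1
  have h4 : ∀ j, (β j : ℝ) = rp u ρ D j + β i * xx u ρ i j := by
    intro j
    have h5 := num_rp hS hρ (⟨m, hm2⟩ : NumEquiv u (fun i => (β i : ℤ)) D) j
    rw [← h5]
    unfold rp
    rw [sum_one hi]
    · push_cast; ring
    · intro h hh hhi
      simp [(hβ h).2 (Set.mem_insert_of_mem _ ⟨hh, hhi⟩)]
  have h5 := h4 i'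
  rw [(hβ i').2 (Set.mem_insert _ _), Nat.cast_zero] at h5
  have h6 := (bound hS hD hρ hni).1
  have h7 : (0 : ℝ) ≤ β i := Nat.cast_nonneg _
  by_contra h8
  push Not at h8
  nlinarith

theorem exists_edge (hS : IsFan u S) {D : ι → ℤ} (hD : IsAmpleFree u S D) {τ : Set ι}
    (hT : Sit u S D τ) {ρ : Set ι} (hρ : IsMax S ρ) (hτρ : τ ⊆ ρ) {i : ι} (hi : i ∈ ρ)
    (hiτ : i ∉ τ) : ∃ p v, IsEdge u D ρ i p v := by
  classical
  obtain ⟨-, ⟨D0, m0, hD0, hm0⟩, -⟩ := maxData hS hρ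
  -- the subgroup of the values
  let G : AddSubgroup ℤ :=
    { carrier := {a | ∃ m : Fin N → ℤ, (∀ h ∈ ρ, h ≠ i → pr u m h = 0) ∧ pr u m i = a}
      zero_mem' := ⟨0, fun _ _ _ => by simp [pr], by simp [pr]⟩
      add_mem' := by
        rintro a b ⟨m, h1, rfl⟩ ⟨m', h1', rfl⟩
        exact ⟨m + m', fun h hh hhi => by rw [pr_add, h1 h hh hhi, h1' h hh hhi, add_zero],
          pr_add _ _ _⟩
      neg_mem' := by
        rintro a ⟨m, h1, rfl⟩
        have h2 : ∀ h, pr u (-m) h = -pr u m h := fun h => by simp [pr]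
        exact ⟨-m, fun h hh hhi => by rw [h2, h1 h hh hhi, neg_zero], h2 i⟩ }
  obtain ⟨p, hp⟩ := Int.subgroup_cyclic G
  have hpG : (p.natAbs : ℤ) ∈ G := by
    have h1 : p ∈ G := by rw [hp]; exact AddSubgroup.subset_closure rfl
    rcases Int.natAbs_eq p with h2 | h2
    · rw [← h2]; exact h1
    · have h3 : (p.natAbs : ℤ) = -p := by omega
      rw [h3]; exact G.neg_mem h1
  have hdvd : ∀ a ∈ G, (p.natAbs : ℤ) ∣ a := by
    intro a ha
    rw [hp, AddSubgroup.mem_closure_singleton] at ha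
    obtain ⟨n, rfl⟩ := ha
    rw [Int.natAbs_dvd]
    exact Dvd.intro_left n (by simp)
  obtain ⟨v, hv1, hv2⟩ := hpG
  have hp0 : (p.natAbs : ℤ) ≠ 0 := by
    intro h
    have h1 : (D0 : ℤ) ∈ G := ⟨m0 i, fun h hh hhi => (hm0 i hi).2 h hh hhi, (hm0 i hi).1⟩
    have h2 := hdvd _ h1
    rw [h, zero_dvd_iff] at h2
    omega
  have hp1 : (p.natAbs : ℤ) ≠ 1 := by
    intro h
    apply hT.sing ρ hρ hτρ
    obtain ⟨m, hm⟩ := hT.wall ρ hρ hτρ i hi hiτ
    refine ⟨fun l => if l = i then v else m l - pr u (m l) i • v, fun l hl => ?_⟩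
    by_cases hli : l = i
    · subst hli
      simp only [if_true]
      exact ⟨by rw [hv2, h], fun h hh hhl => hv1 h hh hhl⟩
    · simp only [if_neg hli]
      have h1 := hm l ⟨hl, hli⟩
      refine ⟨?_, fun j hj hjl => ?_⟩
      · rw [pr_sub, pr_smul, hv1 l hl hli, h1.1]; simp
      · by_cases hji : j = i
        · subst hji
          rw [pr_sub, pr_smul, hv2, h]; ring
        · rw [pr_sub, pr_smul, hv1 j hj hji, h1.2 j ⟨hj, hji⟩ hjl]; simp
  refine ⟨p.natAbs, v, ⟨by omega, hv1, hv2, fun m hm => hdvd _ ⟨m, hm, rfl⟩, fun j => ?_⟩⟩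
  -- the other vertex
  obtain ⟨i', hi', hmax, hx⟩ := neighbour hS hD hρ hi
  have hτ' : τ ⊆ insert i' (ρ \ {i}) := fun h hh =>
    Set.mem_insert_of_mem _ ⟨hτρ hh, fun h' => hiτ (by rw [← h']; exact hh)⟩
  obtain ⟨α, hα1, hα2⟩ := hT.vert _ hmax hτ'
  obtain ⟨α₀, hα₀1, hα₀2⟩ := hT.vert _ hρ hτρ
  have h1 : ∀ j, (α j : ℝ) = rp u ρ D j + α i * xx u ρ i j := fun j => by
    have h2 := val_one hS hρ hα2 hi (fun h hh hhi => by
      rw [(hα1 h).2 (Set.mem_insert_of_mem _ ⟨hh, hhi⟩)]; rfl) j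
    simpa using h2
  have h2 : (p.natAbs : ℤ) ∣ α i := by
    obtain ⟨m, hm⟩ := hα2
    obtain ⟨m', hm'⟩ := hα₀2
    apply hdvd
    refine ⟨m - m', fun h hh hhi => ?_, ?_⟩
    · have h3 := hm h
      have h4 := hm' h
      simp only [(hα1 h).2 (Set.mem_insert_of_mem _ ⟨hh, hhi⟩), (hα₀1 h).2 hh,
        Nat.cast_zero] at h3 h4
      rw [pr_sub]
      linarith
    · have h3 := hm i
      have h4 := hm' i
      simp only [(hα₀1 i).2 hi, Nat.cast_zero] at h3 h4
      rw [pr_sub]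
      linarith
  have h3 : α i ≠ 0 := by
    intro h
    have h4 := (hα1 i).1 h
    rcases h4 with h4 | h4
    · subst h4; exact hi' hi
    · exact h4.2 rfl
  have h4 : (p.natAbs : ℤ) ≤ α i := Int.le_of_dvd (by omega) h2
  by_cases h5 : 0 ≤ xx u ρ i j
  · have h6 : 0 ≤ rp u ρ D j := by
      by_cases hj : j ∈ ρ
      · rw [rp_of_mem hS hρ _ hj]
      · linarith [(bound hS hD hρ hj).1]
    have h7 : (0 : ℝ) ≤ ((p.natAbs : ℤ) : ℝ) := by positivity
    nlinarith
  · push Not at h5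
    have h6 := h1 j
    have h7 : (0 : ℝ) ≤ α j := Nat.cast_nonneg _
    have h8 : ((p.natAbs : ℤ) : ℝ) ≤ α i := by exact_mod_cast h4
    nlinarith

theorem edge_eq {D : ι → ℤ} {τ : Set ι} (hT : Sit u S D τ)
    {ρ : Set ι} (hρ : IsMax S ρ) (hτρ : τ ⊆ ρ) {i l : ι} (hi : i ∈ ρ) (hiτ : i ∉ τ) (hl : l ∈ ρ)
    (hlτ : l ∉ τ) (hil : i ≠ l) {p p' : ℤ} {v v' : Fin N → ℤ} (h : IsEdge u D ρ i p v)
    (h' : IsEdge u D ρ l p' v') : p = p' := by
  have key : ∀ {i l : ι}, i ∈ ρ → i ∉ τ → l ∈ ρ → l ∉ τ → i ≠ l → ∀ {p p' : ℤ}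
      {v v' : Fin N → ℤ}, IsEdge u D ρ i p v → IsEdge u D ρ l p' v' → p ∣ p' := by
    intro i l hi hiτ hl hlτ hil p p' v v' h h'
    obtain ⟨m, hm⟩ := hT.wall ρ hρ hτρ l hl hlτ
    have h1 := hm i ⟨hi, hil⟩
    have h2 := h.dvd (p' • m i - pr u (m i) l • v') (fun g hg hgi => by
      rw [pr_sub, pr_smul, pr_smul]
      by_cases hgl : g = l
      · subst hgl
        rw [h'.val]; ring
      · rw [h1.2 g ⟨hg, hgl⟩ hgi, h'.zero g hg hgl]; ring)
    rw [pr_sub, pr_smul, pr_smul, h1.1, h'.zero i hi hil] at h2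
    simpa using h2
  have h1 := key hi hiτ hl hlτ hil h h'
  have h2 := key hl hlτ hi hiτ hil.symm h' h
  exact Int.dvd_antisymm (by linarith [h.two]) (by linarith [h'.two]) h1 h2

/-- integral points with prescribed coefficients on a regular wall -/
theorem exists_point {D : ι → ℤ} (B : ι → ℤ)
    {ρ : Set ι} {i : ι} (hw : IsRegularCone u (ρ \ {i})) {p : ℤ} {v : Fin N → ℤ}
    (h : IsEdge u D ρ i p v) (c : ι → ℤ) : ∃ μ : ι → ℤ, LinEquiv u μ B ∧
      (∀ h ∈ ρ, h ≠ i → μ h = c h) ∧ 0 ≤ μ i ∧ μ i < p := by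
  classical
  obtain ⟨m, hm⟩ := hw
  let m1 : Fin N → ℤ := ∑ h ∈ (fs ρ).erase i, (c h - B h) • m h
  have hm1 : ∀ h ∈ ρ, h ≠ i → pr u m1 h = c h - B h := by
    intro h hh hhi
    simp only [m1]
    rw [pr_sum, Finset.sum_eq_single h]
    · rw [pr_smul, (hm h ⟨hh, hhi⟩).1, mul_one]
    · intro g hg hgh
      have hg1 := Finset.ne_of_mem_erase hg
      have hg2 := mem_fs.1 (Finset.mem_of_mem_erase hg)
      rw [pr_smul, (hm g ⟨hg2, hg1⟩).2 h ⟨hh, hhi⟩ (Ne.symm hgh), mul_zero]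
    · intro h'
      exact absurd (Finset.mem_erase.2 ⟨hhi, mem_fs.2 hh⟩) h'
  set q : ℤ := (B i + pr u m1 i) / p with hq
  have hp : 0 < p := by linarith [h.two]
  refine ⟨fun j => B j + pr u (m1 - q • v) j, ⟨m1 - q • v, fun j => rfl⟩, fun g hg hgi => ?_, ?_, ?_⟩
  · show B g + pr u (m1 - q • v) g = c g
    rw [pr_sub, pr_smul, h.zero g hg hgi, hm1 g hg hgi]
    ring
  · show 0 ≤ B i + pr u (m1 - q • v) i
    rw [pr_sub, pr_smul, h.val]
    have h1 := Int.emod_nonneg (B i + pr u m1 i) hp.ne'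
    have h2 := Int.emod_add_mul_ediv (B i + pr u m1 i) p
    rw [← hq] at h2
    linarith
  · show B i + pr u (m1 - q • v) i < p
    rw [pr_sub, pr_smul, h.val]
    have h1 := Int.emod_lt_of_pos (B i + pr u m1 i) hp
    have h2 := Int.emod_add_mul_ediv (B i + pr u m1 i) p
    rw [← hq] at h2
    linarith

/-- `K` contains the differences of the monomials of the class `B` which do not vanish on the orbit. -/
def Contains (u : ι → Fin N → ℤ) (B : ι → ℤ) (τ : Set ι) (K : AddSubgroup (Fin N → ℤ)) : Prop :=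
  ∀ m m' : Fin N → ℤ, (∀ j ∈ τ, B j + pr u m j = 0) → (∀ j ∈ τ, B j + pr u m' j = 0) →
    (∀ j, 0 ≤ B j + pr u m j) → (∀ j, 0 ≤ B j + pr u m' j) → m - m' ∈ K

theorem corners {d p x y a b : ℝ} (hp : 0 < p) (h1 : 0 ≤ d) (h2 : 0 ≤ d + p * x)
    (h3 : 0 ≤ d + p * y) (h4 : 0 ≤ d + p * x + p * y) (ha : 0 ≤ a) (ha' : a ≤ p) (hb : 0 ≤ b)
    (hb' : b ≤ p) : 0 ≤ d + a * x + b * y := by
  have h5 : 0 ≤ (p - a) * (p - b) * d + a * (p - b) * (d + p * x) + (p - a) * b * (d + p * y) +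
      a * b * (d + p * x + p * y) := by
    have e1 : 0 ≤ p - a := by linarith
    have e2 : 0 ≤ p - b := by linarith
    positivity
  have h6 : (p - a) * (p - b) * d + a * (p - b) * (d + p * x) + (p - a) * b * (d + p * y) +
      a * b * (d + p * x + p * y) = p ^ 2 * (d + a * x + b * y) := by ring
  rw [h6] at h5
  exact nonneg_of_mul_nonneg_right h5 (by positivity)

theorem square_core (hS : IsFan u S) {D B : ι → ℤ} (hD : IsAmpleFree u S D) (hB : Big u S D B)
    {τ : Set ι} (hT : Sit u S D τ) {K : AddSubgroup (Fin N → ℤ)} (hK : Contains u B τ K)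
    {ρ : Set ι} (hρ : IsMax S ρ) (hτρ : τ ⊆ ρ) {i l : ι} (hi : i ∈ ρ) (hiτ : i ∉ τ) (hl : l ∈ ρ)
    (hlτ : l ∉ τ) (hil : i ≠ l) {p : ℤ} {v v' : Fin N → ℤ} (h : IsEdge u D ρ i p v)
    (h' : IsEdge u D ρ l p v')
    (hsq : ∀ j, j ∉ ρ → 0 ≤ rp u ρ D j + p * xx u ρ i j + p * xx u ρ l j) (m : Fin N → ℤ)
    (hm : ∀ g ∈ ρ, g ≠ i → g ≠ l → pr u m g = 0) : m ∈ K := by
  classical
  have hp : 2 ≤ p := h.two
  obtain ⟨n, rfl⟩ : ∃ n : ℕ, p = n := ⟨p.toNat, by omega⟩
  have hn : 2 ≤ n := by exact_mod_cast hp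
  have hpt : ∀ b : ℕ, b ≤ n → ∃ M : Fin N → ℤ, (∀ g ∈ ρ, g ≠ i → g ≠ l → B g + pr u M g = 0) ∧
      B l + pr u M l = b ∧ 0 ≤ B i + pr u M i ∧ B i + pr u M i < n ∧ ∀ j, 0 ≤ B j + pr u M j := by
    intro b hb
    obtain ⟨μ, ⟨M, hM⟩, h2, h3, h4⟩ := exists_point B (hT.wall ρ hρ hτρ i hi hiτ) h
      (fun g => if g = l then (b : ℤ) else 0)
    have hμl : μ l = b := by rw [h2 l hl hil.symm, if_pos rfl]
    have hμg : ∀ g ∈ ρ, g ≠ i → g ≠ l → μ g = 0 := fun g hg hgi hgl => by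
      rw [h2 g hg hgi, if_neg hgl]
    refine ⟨M, fun g hg hgi hgl => by rw [← hM, hμg g hg hgi hgl], by rw [← hM, hμl],
      by rw [← hM]; exact h3, by rw [← hM]; exact h4, fun j => ?_⟩
    rw [← hM]
    by_cases hj : j ∈ ρ
    · by_cases hji : j = i
      · rw [hji]; exact h3
      · by_cases hjl : j = l
        · rw [hjl, hμl]; positivity
        · rw [hμg j hj hji hjl]
    · have h5 := val_two hS hρ ⟨M, hM⟩ hi hl hil hμg j
      have h6 := (hB ρ hρ j hj).1
      have h7 := (bound hS hD hρ hj).1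
      have h8 := corners (d := rp u ρ D j) (p := n) (x := xx u ρ i j) (y := xx u ρ l j)
        (a := μ i) (b := μ l) (by positivity) (by linarith) (by exact_mod_cast h.nonneg j)
        (by exact_mod_cast h'.nonneg j) (by exact_mod_cast hsq j hj) (by exact_mod_cast h3)
        (by exact_mod_cast h4.le) (by rw [hμl]; positivity) (by rw [hμl]; exact_mod_cast hb)
      have h9 : (0 : ℝ) ≤ μ j := by rw [h5]; linarith
      exact_mod_cast h9
  choose! M hM1 hM2 hM3 hM4 hM5 using hpt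
  have hMK : ∀ b b' : ℕ, b ≤ n → b' ≤ n → M b - M b' ∈ K := by
    intro b b' hb hb'
    refine hK (M b) (M b') (fun j hj => ?_) (fun j hj => ?_) (hM5 b hb) (hM5 b' hb')
    · exact hM1 b hb j (hτρ hj) (fun h => hiτ (h ▸ hj)) (fun h => hlτ (h ▸ hj))
    · exact hM1 b' hb' j (hτρ hj) (fun h => hiτ (h ▸ hj)) (fun h => hlτ (h ▸ hj))
  set a : ℕ → ℤ := fun b => B i + pr u (M b) i with ha
  have hai : ∀ b b', pr u (M b - M b') i = a b - a b' := fun b b' => by
    rw [pr_sub]; simp only [ha]; ring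
  have hal : ∀ b b', b ≤ n → b' ≤ n → pr u (M b - M b') l = (b : ℤ) - b' := fun b b' hb hb' => by
    have h1 := hM2 b hb
    have h2 := hM2 b' hb'
    rw [pr_sub]; linarith
  have hag : ∀ b b', b ≤ n → b' ≤ n → ∀ g ∈ ρ, g ≠ i → g ≠ l → pr u (M b - M b') g = 0 := by
    intro b b' hb hb' g hg hgi hgl
    have h1 := hM1 b hb g hg hgi hgl
    have h2 := hM1 b' hb' g hg hgi hgl
    rw [pr_sub]; linarith
  have hend : a n = a 0 := by
    have h1 := h.dvd (M n - M 0 - v') (fun g hg hgi => by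
      rw [pr_sub]
      by_cases hgl : g = l
      · subst hgl
        rw [hal n 0 le_rfl (by omega), h'.val]; simp
      · rw [hag n 0 le_rfl (by omega) g hg hgi hgl, h'.zero g hg hgl, sub_zero])
    rw [pr_sub, hai, h'.zero i hi hil, sub_zero] at h1
    have h2 := hM3 n le_rfl
    have h3 := hM4 n le_rfl
    have h4 := hM3 0 (by omega)
    have h5 := hM4 0 (by omega)
    have h6 : a n - a 0 = 0 := Int.eq_zero_of_abs_lt_dvd h1 (by
      rw [abs_lt]; constructor <;> simp only [ha] <;> linarith)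
    linarith
  have hstep : ∃ b, b < n ∧ a (b + 1) - a b ≠ a 1 - a 0 := by
    by_contra hcon
    push Not at hcon
    have h1 : ∀ b : ℕ, b ≤ n → a b = a 0 + b * (a 1 - a 0) := by
      intro b
      induction b with
      | zero => intro _; simp
      | succ b ih =>
        intro hb
        have h2 := ih (by omega)
        have h3 := hcon b (by omega)
        push_cast
        linarith
    have h2 := h1 n le_rfl
    rw [hend] at h2
    have h3 : (n : ℤ) * (a 1 - a 0) = 0 := by linarith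
    have h4 : a 1 - a 0 = 0 := by
      rcases mul_eq_zero.1 h3 with h5 | h5
      · omega
      · exact h5
    have h5 := h'.dvd (M 1 - M 0) (fun g hg hgl => by
      by_cases hgi : g = i
      · subst hgi; rw [hai, h4]
      · exact hag 1 0 (by omega) (by omega) g hg hgi hgl)
    rw [hal 1 0 (by omega) (by omega)] at h5
    have h6 : (n : ℤ) ≤ 1 := Int.le_of_dvd one_pos (by simpa using h5)
    omega
  have hv : v ∈ K := by
    obtain ⟨b, hb, hne⟩ := hstep
    set w := (M (b + 1) - M b) - (M 1 - M 0) with hw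
    have hwK : w ∈ K := K.sub_mem (hMK _ _ (by omega) (by omega)) (hMK _ _ (by omega) (by omega))
    have hw0 : ∀ g ∈ ρ, g ≠ i → pr u w g = 0 := by
      intro g hg hgi
      rw [hw, pr_sub]
      by_cases hgl : g = l
      · subst hgl
        rw [hal _ _ (by omega) (by omega), hal _ _ (by omega) (by omega)]
        push_cast; ring
      · rw [hag _ _ (by omega) (by omega) g hg hgi hgl, hag _ _ (by omega) (by omega) g hg hgi hgl,
          sub_zero]
    have hwi : pr u w i = (a (b + 1) - a b) - (a 1 - a 0) := by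
      rw [hw, pr_sub, hai, hai]
    have h1 := h.dvd w hw0
    have e1 := hM3 (b + 1) (by omega)
    have e2 := hM4 (b + 1) (by omega)
    have e3 := hM3 b (by omega)
    have e4 := hM4 b (by omega)
    have e5 := hM3 1 (by omega)
    have e6 := hM4 1 (by omega)
    have e7 := hM3 0 (by omega)
    have e8 := hM4 0 (by omega)
    have h2 : pr u w i = n ∨ pr u w i = -n := by
      obtain ⟨q, hq⟩ := h1
      have hne0 : pr u w i ≠ 0 := by rw [hwi]; exact sub_ne_zero.2 hne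
      have h3 : q ≠ 0 := by rintro rfl; simp at hq; exact hne0 hq
      have h4 : pr u w i < 2 * n := by rw [hwi]; simp only [ha]; linarith
      have h5 : -(2 * n) < pr u w i := by rw [hwi]; simp only [ha]; linarith
      have h6 : q < 2 := by
        by_contra h7
        push Not at h7
        nlinarith
      have h7 : -2 < q := by
        by_contra h7
        push Not at h7
        nlinarith
      have h8 : q = 1 ∨ q = -1 := by omega
      rcases h8 with h8 | h8
      · left; rw [hq, h8, mul_one]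
      · right; rw [hq, h8]; ring
    rcases h2 with h2 | h2
    · have h3 : w - v = 0 := form_zero_int hS hρ fun g hg => by
        rw [pr_sub]
        by_cases hgi : g = i
        · subst hgi; rw [h2, h.val, sub_self]
        · rw [hw0 g hg hgi, h.zero g hg hgi, sub_zero]
      rwa [← sub_eq_zero.1 h3]
    · have h3 : -w - v = 0 := form_zero_int hS hρ fun g hg => by
        have h4 : pr u (-w) g = -pr u w g := by simp [pr]
        rw [pr_sub, h4]
        by_cases hgi : g = i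
        · subst hgi; rw [h2, h.val, neg_neg, sub_self]
        · rw [hw0 g hg hgi, h.zero g hg hgi, neg_zero, sub_zero]
      rw [← sub_eq_zero.1 h3]
      exact K.neg_mem hwK
  -- the general element
  have h1 := h.dvd (m - pr u m l • (M 1 - M 0)) (fun g hg hgi => by
    rw [pr_sub, pr_smul]
    by_cases hgl : g = l
    · subst hgl
      rw [hal 1 0 (by omega) (by omega)]; simp
    · rw [hag 1 0 (by omega) (by omega) g hg hgi hgl, hm g hg hgi hgl]; simp)
  obtain ⟨q, hq⟩ := h1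
  have h2 : m - pr u m l • (M 1 - M 0) - q • v = 0 := form_zero_int hS hρ fun g hg => by
    rw [pr_sub, pr_smul]
    by_cases hgi : g = i
    · subst hgi
      rw [hq, h.val]; ring
    · rw [h.zero g hg hgi, pr_sub, pr_smul]
      by_cases hgl : g = l
      · subst hgl
        rw [hal 1 0 (by omega) (by omega)]; simp
      · rw [hag 1 0 (by omega) (by omega) g hg hgi hgl, hm g hg hgi hgl]; simp
  have h3 : m = pr u m l • (M 1 - M 0) + q • v := by
    have h4 := sub_eq_zero.1 h2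
    rw [← h4]; abel
  rw [h3]
  exact K.add_mem (K.zsmul_mem (hMK _ _ (by omega) (by omega)) _) (K.zsmul_mem hv _)

end H90.TV
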