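import Pool.Agent.H90.TV.Surf

/-!
# The monomials of the class `B` at a point of the hypersurface
-/

set_option autoImplicit false

namespace H90.TV

open H90.TF MvPolynomial

variable {ι : Type} [Fintype ι] {N : ℕ} {u : ι → Fin N → ℤ} {S : Set (Set ι)}

/-- If the restriction of `f` to the orbit is a binomial, then `K` contains the quotient of the two
monomials. -/
def BinomIn (u : ι → Fin N → ℤ) (f : MvPolynomial ι ℂ) (τ : Set ι) (K : AddSubgroup (Fin N → ℤ)) :
    Prop :=
  ∀ α ∈ f.support, ∀ α' ∈ f.support, (∀ l ∈ τ, α l = 0) → (∀ l ∈ τ, α' l = 0) → α ≠ α' →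
    (∀ α'' ∈ f.support, (∀ l ∈ τ, α'' l = 0) → α'' = α ∨ α'' = α') →
      ∀ m : Fin N → ℤ, (∀ j, (α' j : ℤ) = α j + pr u m j) → m ∈ K

/-- There are sufficiently many monomials of the class `B` at the orbit. -/
structure Good (u : ι → Fin N → ℤ) (f : MvPolynomial ι ℂ) (B : ι → ℤ) (τ : Set ι) : Prop where
  s0 : ∃ M : Fin N → ℤ, (∀ j ∈ τ, B j + pr u M j = 0) ∧ ∀ j, 0 ≤ B j + pr u M j
  s1 : ∀ i, i ∉ τ → ∃ M : Fin N → ℤ, (∀ j ∈ τ, B j + pr u M j = 0) ∧
    (∀ j, 0 ≤ B j + pr u M j) ∧ 0 < B i + pr u M i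
  s2 : ∀ l ∈ τ, ∃ M : Fin N → ℤ, B l + pr u M l = 1 ∧ (∀ j ∈ τ, j ≠ l → B j + pr u M j = 0) ∧
    ∀ j, 0 ≤ B j + pr u M j
  s3 : ∀ K : AddSubgroup (Fin N → ℤ), Contains u B τ K → BinomIn u f τ K →
    ∀ m : Fin N → ℤ, (∀ j ∈ τ, pr u m j = 0) → m ∈ K

/-- The regular case. -/
theorem good_of_regular (hS : IsFan u S) {D B : ι → ℤ} (hD : IsAmpleFree u S D)
    (hB : Big u S D B) (f : MvPolynomial ι ℂ) {τ ρ : Set ι} (hρ : IsMax S ρ) (hτρ : τ ⊆ ρ)
    (hr : IsRegularCone u ρ) : Good u f B τ := by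
  classical
  obtain ⟨n, hn⟩ := hr
  let M0 : Fin N → ℤ := ∑ h ∈ fs ρ, (-B h) • n h
  have hM0 : ∀ g ∈ ρ, pr u M0 g = -B g := by
    intro g hg
    simp only [M0]
    rw [pr_sum, Finset.sum_eq_single g]
    · rw [pr_smul, (hn g hg).1, mul_one]
    · intro h hh hhg
      rw [pr_smul, (hn h (mem_fs.1 hh)).2 g hg (Ne.symm hhg), mul_zero]
    · intro h'
      exact absurd (mem_fs.2 hg) h'
  have hval : ∀ (c : ι → ℤ) (j : ι), ((B j + pr u (M0 + ∑ h ∈ fs ρ, c h • n h) j : ℤ) : ℝ) =
      rp u ρ B j + ∑ h ∈ fs ρ, (c h : ℝ) * xx u ρ h j := by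
    intro c j
    set μ : ι → ℤ := fun j => B j + pr u (M0 + ∑ h ∈ fs ρ, c h • n h) j with hμ
    have h1 := val_eq hS hρ (μ := μ) (B := B) ⟨_, fun j => rfl⟩ j
    rw [h1]
    congr 1
    refine Finset.sum_congr rfl fun g hg => ?_
    have hg' := mem_fs.1 hg
    have h2 : μ g = c g := by
      simp only [hμ]
      rw [pr_add, hM0 g hg', pr_sum, Finset.sum_eq_single g]
      · rw [pr_smul, (hn g hg').1]; ring
      · intro h hh hhg
        rw [pr_smul, (hn h (mem_fs.1 hh)).2 g hg' (Ne.symm hhg), mul_zero]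
      · intro h'
        exact absurd hg h'
    rw [h2]
  have v0 : ∀ j, ((B j + pr u M0 j : ℤ) : ℝ) = rp u ρ B j := by
    intro j
    have h1 := hval (fun _ => 0) j
    simpa using h1
  have v1 : ∀ l ∈ ρ, ∀ j, ((B j + pr u (M0 + n l) j : ℤ) : ℝ) = rp u ρ B j + xx u ρ l j := by
    intro l hl j
    have h1 := hval (fun h => if h = l then 1 else 0) j
    have h2 : ∑ h ∈ fs ρ, (if h = l then (1 : ℤ) else 0) • n h = n l := by
      rw [Finset.sum_eq_single l]
      · simp
      · intro h _ hh; simp [hh]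
      · intro h'; exact absurd (mem_fs.2 hl) h'
    have h3 : ∑ h ∈ fs ρ, (((if h = l then 1 else 0 : ℤ)) : ℝ) * xx u ρ h j = xx u ρ l j := by
      rw [Finset.sum_eq_single l]
      · simp
      · intro h _ hh; simp [hh]
      · intro h'; exact absurd (mem_fs.2 hl) h'
    rw [h2, h3] at h1
    exact h1
  have n0 : ∀ j, 0 ≤ B j + pr u M0 j ∧ (j ∉ ρ → 0 < B j + pr u M0 j) := by
    intro j
    by_cases hj : j ∈ ρ
    · exact ⟨by rw [hM0 j hj]; simp, fun h => absurd hj h⟩
    · have h1 := (hB ρ hρ j hj).1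
      have h2 := (bound hS hD hρ hj).1
      have h3 : (0 : ℝ) < ((B j + pr u M0 j : ℤ) : ℝ) := by rw [v0]; linarith
      have h4 : 0 < B j + pr u M0 j := by exact_mod_cast h3
      exact ⟨h4.le, fun _ => h4⟩
  have n1 : ∀ l ∈ ρ, ∀ j, 0 ≤ B j + pr u (M0 + n l) j := by
    intro l hl j
    by_cases hj : j ∈ ρ
    · rw [pr_add, hM0 j hj]
      by_cases hjl : j = l
      · rw [hjl, (hn l hl).1]; ring_nf; norm_num
      · rw [(hn l hl).2 j hj hjl]; ring_nf; norm_num
    · have h1 := (hB ρ hρ j hj).1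
      have h2 := (bound hS hD hρ hj).2 l hl
      have h3 : (0 : ℝ) ≤ ((B j + pr u (M0 + n l) j : ℤ) : ℝ) := by rw [v1 l hl]; linarith
      exact_mod_cast h3
  have z0 : ∀ j ∈ ρ, B j + pr u M0 j = 0 := fun j hj => by rw [hM0 j hj]; ring
  have z1 : ∀ l ∈ ρ, ∀ j ∈ ρ, j ≠ l → B j + pr u (M0 + n l) j = 0 := fun l hl j hj hjl => by
    rw [pr_add, hM0 j hj, (hn l hl).2 j hj hjl]; ring
  have z2 : ∀ l ∈ ρ, B l + pr u (M0 + n l) l = 1 := fun l hl => by
    rw [pr_add, hM0 l hl, (hn l hl).1]; ring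
  refine ⟨⟨M0, fun j hj => z0 j (hτρ hj), fun j => (n0 j).1⟩, fun i hi => ?_, fun l hl => ?_,
    fun K hK _ m hm => ?_⟩
  · by_cases hiρ : i ∈ ρ
    · exact ⟨M0 + n i, fun j hj => z1 i hiρ j (hτρ hj) (fun h => hi (h ▸ hj)), n1 i hiρ, by
        rw [z2 i hiρ]; norm_num⟩
    · exact ⟨M0, fun j hj => z0 j (hτρ hj), fun j => (n0 j).1, (n0 i).2 hiρ⟩
  · exact ⟨M0 + n l, z2 l (hτρ hl), fun j hj hjl => z1 l (hτρ hl) j (hτρ hj) hjl, n1 l (hτρ hl)⟩
  · have h1 : m - ∑ h ∈ fs ρ, pr u m h • n h = 0 := form_zero_int hS hρ fun g hg => by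
      rw [pr_sub, pr_sum, Finset.sum_eq_single g]
      · rw [pr_smul, (hn g hg).1, mul_one, sub_self]
      · intro h hh hhg
        rw [pr_smul, (hn h (mem_fs.1 hh)).2 g hg (Ne.symm hhg), mul_zero]
      · intro h'
        exact absurd (mem_fs.2 hg) h'
    rw [sub_eq_zero.1 h1]
    refine K.sum_mem fun h hh => ?_
    by_cases hhτ : h ∈ τ
    · rw [hm h hhτ, zero_smul]; exact K.zero_mem
    · have hh' := mem_fs.1 hh
      have h2 := hK (M0 + n h) M0 (fun j hj => z1 h hh' j (hτρ hj) (fun h' => hhτ (h' ▸ hj)))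
        (fun j hj => z0 j (hτρ hj)) (n1 h hh') fun j => (n0 j).1
      have h3 : M0 + n h - M0 = n h := by abel
      rw [h3] at h2
      exact K.zsmul_mem h2 _

/-- The singular case. -/
theorem good_of_sit (hS : IsFan u S) {D B : ι → ℤ} (hD : IsAmpleFree u S D)
    (hB : Big u S D B) {f : MvPolynomial ι ℂ} (hf : IsHomog u f D)
    (hvert : ∀ ρ, IsMax S ρ → ∀ τ ⊆ ρ, Sit u S D τ → ∃ α ∈ f.support, ∀ l ∈ ρ, α l = 0)
    {τ : Set ι} (hτ : τ ∈ S) (hr : IsRegularCone u τ) (hT : Sit u S D τ) : Good u f B τ := by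
  classical
  have hex : ∀ ρ, IsMax S ρ → τ ⊆ ρ → ∃ i ∈ ρ, i ∉ τ := by
    intro ρ hρ hτρ
    by_contra hcon
    push Not at hcon
    have h1 : ρ = τ := Set.Subset.antisymm hcon hτρ
    exact hT.sing ρ hρ hτρ (h1 ▸ hr)
  have hpoint : ∀ ρ, IsMax S ρ → τ ⊆ ρ → ∀ i ∈ ρ, i ∉ τ → ∃ M : Fin N → ℤ,
      (∀ j ∈ ρ, j ≠ i → B j + pr u M j = 0) ∧ 0 ≤ B i + pr u M i ∧
      (∀ p v, IsEdge u D ρ i p v → B i + pr u M i < p) ∧ ∀ j, j ∉ ρ → 0 < B j + pr u M j := by
    intro ρ hρ hτρ i hi hiτ
    obtain ⟨p, v, he⟩ := exists_edge hS hD hT hρ hτρ hi hiτ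
    obtain ⟨μ, ⟨M, hM⟩, h2, h3, h4⟩ := exists_point B (hT.wall ρ hρ hτρ i hi hiτ) he fun _ => 0
    refine ⟨M, fun j hj hji => by rw [← hM]; exact h2 j hj hji, by rw [← hM]; exact h3,
      fun p' v' he' => ?_, fun j hj => ?_⟩
    · rw [← hM]
      have h5 : p ∣ p' := by
        have := he.dvd v' he'.zero
        rwa [he'.val] at this
      exact lt_of_lt_of_le h4 (Int.le_of_dvd (by linarith [he'.two]) h5)
    · rw [← hM]
      have h5 := val_one hS hρ ⟨M, hM⟩ hi h2 j
      have h6 := (hB ρ hρ j hj).1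
      have h7 := (bound hS hD hρ hj).1
      have h8 := he.nonneg j
      have h9 : (μ i : ℝ) < p := by exact_mod_cast h4
      have h10 : (0 : ℝ) ≤ μ i := by exact_mod_cast h3
      have h11 : (0 : ℝ) < p := by linarith
      have h12 : 0 < (p : ℝ) * (rp u ρ D j + μ i * xx u ρ i j) := by
        have : (p : ℝ) * (rp u ρ D j + μ i * xx u ρ i j) =
          (p - μ i) * rp u ρ D j + μ i * (rp u ρ D j + p * xx u ρ i j) := by ring
        rw [this]
        have h13 : 0 < (p - μ i : ℝ) * rp u ρ D j := mul_pos (by linarith) (by linarith)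
        have h14 : 0 ≤ (μ i : ℝ) * (rp u ρ D j + p * xx u ρ i j) := mul_nonneg h10 h8
        linarith
      have h13 := (mul_pos_iff_of_pos_left h11).1 h12
      have h14 : (0 : ℝ) < μ j := by rw [h5]; linarith
      exact_mod_cast h14
  obtain ⟨ρ₀, hρ₀, hτρ₀⟩ := exists_max_cone hτ
  have hnn : ∀ {ρ : Set ι} {i : ι} {M : Fin N → ℤ}, (∀ j ∈ ρ, j ≠ i → B j + pr u M j = 0) →
      0 ≤ B i + pr u M i → (∀ j, j ∉ ρ → 0 < B j + pr u M j) → ∀ j, 0 ≤ B j + pr u M j := by
    intro ρ i M h1 h2 h3 j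
    by_cases hj : j ∈ ρ
    · by_cases hji : j = i
      · rw [hji]; exact h2
      · rw [h1 j hj hji]
    · exact (h3 j hj).le
  refine ⟨?_, fun i hi => ?_, fun l hl => ?_, fun K hK hF m hm => ?_⟩
  · obtain ⟨i, hi, hiτ⟩ := hex ρ₀ hρ₀ hτρ₀
    obtain ⟨M, h1, h2, -, h4⟩ := hpoint ρ₀ hρ₀ hτρ₀ i hi hiτ
    exact ⟨M, fun j hj => h1 j (hτρ₀ hj) (fun h => hiτ (h ▸ hj)), hnn h1 h2 h4⟩
  · obtain ⟨ρ, hρ, hτρ, hiρ⟩ := hS.avoid hτ hi
    obtain ⟨l, hl, hlτ⟩ := hex ρ hρ hτρ
    obtain ⟨M, h1, h2, -, h4⟩ := hpoint ρ hρ hτρ l hl hlτ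
    exact ⟨M, fun j hj => h1 j (hτρ hj) (fun h => hlτ (h ▸ hj)), hnn h1 h2 h4, h4 i hiρ⟩
  · obtain ⟨i, hi, hiτ⟩ := hex ρ₀ hρ₀ hτρ₀
    obtain ⟨p, v, he⟩ := exists_edge hS hD hT hρ₀ hτρ₀ hi hiτ
    have hlρ := hτρ₀ hl
    have hil : i ≠ l := fun h => hiτ (h ▸ hl)
    obtain ⟨μ, ⟨M, hM⟩, h2, h3, h4⟩ := exists_point B (hT.wall ρ₀ hρ₀ hτρ₀ i hi hiτ) he
      fun g => if g = l then 1 else 0
    have hμl : μ l = 1 := by rw [h2 l hlρ hil.symm, if_pos rfl]
    have hμg : ∀ g ∈ ρ₀, g ≠ i → g ≠ l → μ g = 0 := fun g hg hgi hgl => by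
      rw [h2 g hg hgi, if_neg hgl]
    refine ⟨M, by rw [← hM, hμl], fun j hj hjl => ?_, fun j => ?_⟩
    · rw [← hM]; exact hμg j (hτρ₀ hj) (fun h => hiτ (h ▸ hj)) hjl
    · rw [← hM]
      by_cases hj : j ∈ ρ₀
      · by_cases hji : j = i
        · rw [hji]; exact h3
        · by_cases hjl : j = l
          · rw [hjl, hμl]; norm_num
          · rw [hμg j hj hji hjl]
      · have h5 := val_two hS hρ₀ ⟨M, hM⟩ hi hlρ hil hμg j
        rw [hμl] at h5
        push_cast at h5
        have h6 := (hB ρ₀ hρ₀ j hj).1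
        have h6' := (hB ρ₀ hρ₀ j hj).2 i hi l hlρ
        have h7 := (bound hS hD hρ₀ hj).2 l hlρ
        have h8 := he.nonneg j
        have h9 : (μ i : ℝ) + 1 ≤ p := by exact_mod_cast h4
        have h10 : (0 : ℝ) ≤ μ i := by exact_mod_cast h3
        have h14 : (0 : ℝ) ≤ μ j := by
          rw [h5]
          by_cases h11 : 0 ≤ xx u ρ₀ i j
          · have := mul_nonneg h10 h11
            linarith
          · push Not at h11
            nlinarith
        exact_mod_cast h14
  · obtain ⟨i, hi, hiτ⟩ := hex ρ₀ hρ₀ hτρ₀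
    by_cases h2 : ∃ l ∈ ρ₀, l ∉ τ ∧ i ≠ l
    · -- a face of dimension at least two
      obtain ⟨l, hl, hlτ, hil⟩ := h2
      obtain ⟨n, hn⟩ := hT.wall ρ₀ hρ₀ hτρ₀ i hi hiτ
      have h3 : m - ∑ h ∈ (fs ρ₀).erase i, pr u m h • n h ∈ K := by
        refine surface hS hD hB hT hK hρ₀ hτρ₀ hi hiτ hl hlτ hil _ fun g hg hgi hgl => ?_
        rw [pr_sub, pr_sum, Finset.sum_eq_single g]
        · rw [pr_smul, (hn g ⟨hg, hgi⟩).1, mul_one, sub_self]
        · intro h hh hhg
          have e1 := Finset.ne_of_mem_erase hh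
          have e2 := mem_fs.1 (Finset.mem_of_mem_erase hh)
          rw [pr_smul, (hn h ⟨e2, e1⟩).2 g ⟨hg, hgi⟩ (Ne.symm hhg), mul_zero]
        · intro h'
          exact absurd (Finset.mem_erase.2 ⟨hgi, mem_fs.2 hg⟩) h'
      have h4 : ∑ h ∈ (fs ρ₀).erase i, pr u m h • n h ∈ K := by
        refine K.sum_mem fun h hh => ?_
        have e1 := Finset.ne_of_mem_erase hh
        have e2 := mem_fs.1 (Finset.mem_of_mem_erase hh)
        by_cases hhτ : h ∈ τ
        · rw [hm h hhτ, zero_smul]; exact K.zero_mem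
        · apply K.zsmul_mem
          exact surface hS hD hB hT hK hρ₀ hτρ₀ hi hiτ e2 hhτ (Ne.symm e1) _ fun g hg hgi hgh =>
            (hn h ⟨e2, e1⟩).2 g ⟨hg, hgi⟩ hgh
      have h5 := K.add_mem h3 h4
      rwa [sub_add_cancel] at h5
    · -- a curve
      push Not at h2
      have hτi : ∀ g ∈ ρ₀, g ≠ i → g ∈ τ := fun g hg hgi => by
        by_contra h3
        exact hgi (h2 g hg h3).symm
      obtain ⟨p, v, he⟩ := exists_edge hS hD hT hρ₀ hτρ₀ hi hiτ
      have hp : 2 ≤ p := he.two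
      suffices hv : v ∈ K by
        obtain ⟨q, hq⟩ := he.dvd m fun g hg hgi => hm g (hτi g hg hgi)
        have h3 : m - q • v = 0 := form_zero_int hS hρ₀ fun g hg => by
          rw [pr_sub, pr_smul]
          by_cases hgi : g = i
          · rw [hgi, hq, he.val]; ring
          · rw [hm g (hτi g hg hgi), he.zero g hg hgi]; ring
        rw [sub_eq_zero.1 h3]
        exact K.zsmul_mem hv q
      obtain ⟨i', hi', hρ', hx⟩ := neighbour hS hD hρ₀ hi
      set ρ' := insert i' (ρ₀ \ {i}) with hρ'd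
      have hτρ' : τ ⊆ ρ' := fun g hg =>
        Set.mem_insert_of_mem _ ⟨hτρ₀ hg, fun h' => hiτ (h' ▸ hg)⟩
      have hi'ρ' : i' ∈ ρ' := Set.mem_insert _ _
      have hiρ' : i ∉ ρ' := by
        rintro (h' | h')
        · exact hi' (h' ▸ hi)
        · exact h'.2 rfl
      obtain ⟨α, hα, hα0⟩ := hvert ρ₀ hρ₀ τ hτρ₀ hT
      obtain ⟨α', hα', hα'0⟩ := hvert ρ' hρ' τ hτρ' hT
      obtain ⟨n, hn⟩ := hf α hα
      obtain ⟨n', hn'⟩ := hf α' hα'
      have hz' : ∀ g ∈ ρ₀, g ≠ i → α' g = 0 := fun g hg hgi =>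
        hα'0 g (Set.mem_insert_of_mem _ ⟨hg, hgi⟩)
      have hn0 : ∀ g ∈ ρ₀, g ≠ i → pr u (n' - n) g = 0 := fun g hg hgi => by
        have e1 := hn g
        have e2 := hn' g
        simp only [hα0 g hg, hz' g hg hgi, Nat.cast_zero] at e1 e2
        rw [pr_sub]; linarith
      have hni : pr u (n' - n) i = α' i := by
        have e1 := hn i
        have e2 := hn' i
        simp only [hα0 i hi, Nat.cast_zero] at e1 e2
        rw [pr_sub]; linarith
      obtain ⟨L, hL⟩ := he.dvd (n' - n) hn0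
      have hnv : n' - n = L • v := by
        have h3 : n' - n - L • v = 0 := form_zero_int hS hρ₀ fun g hg => by
          rw [pr_sub, pr_smul]
          by_cases hgi : g = i
          · rw [hgi, hL, he.val]; ring
          · rw [hn0 g hg hgi, he.zero g hg hgi]; ring
        exact sub_eq_zero.1 h3
      have hrpD : ∀ j, rp u ρ' D j = α' j := fun j => by
        rw [← lin_rp hS hρ' (hf α' hα') j]
        exact rp_nat hα'0 j
      have hrpD0 : ∀ j, rp u ρ₀ D j = α j := fun j => by
        rw [← lin_rp hS hρ₀ (hf α hα) j]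
        exact rp_nat hα0 j
      have hα'i : 1 ≤ α' i := by
        have h3 := (bound hS hD hρ' hiρ').1
        rw [hrpD] at h3
        exact_mod_cast h3
      have hL1 : 1 ≤ L := by
        have h3 : (α' i : ℤ) = p * L := by rw [← hni, hL]
        by_contra h4
        push Not at h4
        have h5 : (1 : ℤ) ≤ α' i := by exact_mod_cast hα'i
        nlinarith
      by_cases hL2 : 2 ≤ L
      · -- two points on the edge
        obtain ⟨M, g1, g2, g3, g4⟩ := hpoint ρ₀ hρ₀ hτρ₀ i hi hiτ
        have g5 := g3 p v he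
        have h3 := hK (M + v) M (fun j hj => ?_)
          (fun j hj => g1 j (hτρ₀ hj) (fun h => hiτ (h ▸ hj))) (fun j => ?_) (hnn g1 g2 g4)
        · have h4 : M + v - M = v := by abel
          rwa [h4] at h3
        · rw [pr_add, he.zero j (hτρ₀ hj) (fun h => hiτ (h ▸ hj)), add_zero]
          exact g1 j (hτρ₀ hj) (fun h => hiτ (h ▸ hj))
        · by_cases hj : j ∈ ρ₀
          · by_cases hji : j = i
            · rw [hji, pr_add, he.val]; linarith
            · rw [pr_add, he.zero j hj hji, add_zero, g1 j hj hji]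
          · set μ : ι → ℤ := fun j => B j + pr u (M + v) j with hμ
            have e1 : ∀ g ∈ ρ₀, g ≠ i → μ g = 0 := fun g hg hgi => by
              simp only [hμ]
              rw [pr_add, he.zero g hg hgi, add_zero, g1 g hg hgi]
            have e2 := val_one hS hρ₀ (⟨M + v, fun j => rfl⟩ : LinEquiv u μ B) hi e1 j
            have e3 : (μ i : ℝ) = ((B i + pr u M i : ℤ) : ℝ) + p := by
              simp only [hμ]
              rw [pr_add, he.val]; push_cast; ring
            have e4 : (0 : ℝ) ≤ ((B i + pr u M i : ℤ) : ℝ) := by exact_mod_cast g2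
            have e5 : ((B i + pr u M i : ℤ) : ℝ) < p := by exact_mod_cast g5
            have e6 : (α' j : ℝ) = rp u ρ₀ D j + α' i * xx u ρ₀ i j := by
              have := val_one hS hρ₀ (hf α' hα') hi (fun g hg hgi => by
                rw [hz' g hg hgi]; rfl) j
              simpa using this
            have e7 : (α' i : ℝ) = p * L := by
              have : (α' i : ℤ) = p * L := by rw [← hni, hL]
              exact_mod_cast this
            have e8 : (2 : ℝ) ≤ L := by exact_mod_cast hL2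
            have e9 : (0 : ℝ) ≤ α' j := Nat.cast_nonneg _
            have e10 := (hB ρ₀ hρ₀ j hj).1
            have e11 := (bound hS hD hρ₀ hj).1
            have e12 : (2 : ℝ) ≤ p := by exact_mod_cast hp
            have e13 : (0 : ℝ) ≤ μ j := by
              rw [e2]
              by_cases h11 : 0 ≤ xx u ρ₀ i j
              · have : (0 : ℝ) ≤ μ i := by rw [e3]; linarith
                have := mul_nonneg this h11
                linarith
              · push Not at h11
                have e14 : (μ i : ℝ) ≤ α' i := by rw [e3, e7]; nlinarith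
                nlinarith
            exact_mod_cast e13
      · have hL1' : L = 1 := by omega
        rw [hL1', one_smul] at hnv
        rw [hL1', mul_one] at hL
        refine hF α hα α' hα' (fun l hl => hα0 l (hτρ₀ hl))
          (fun l hl => hz' l (hτρ₀ hl) (fun h => hiτ (h ▸ hl))) (fun h => ?_)
          (fun α'' hα'' hα''0 => ?_) v fun j => ?_
        · rw [← h, hα0 i hi] at hα'i
          omega
        · obtain ⟨n'', hn''⟩ := hf α'' hα''
          have k1 : ∀ g ∈ ρ₀, g ≠ i → pr u (n'' - n) g = 0 := fun g hg hgi => by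
            have e1 := hn g
            have e2 := hn'' g
            simp only [hα0 g hg, hα''0 g (hτi g hg hgi), Nat.cast_zero] at e1 e2
            rw [pr_sub]; linarith
          obtain ⟨q, hq⟩ := he.dvd (n'' - n) k1
          have k2 : n'' - n = q • v := by
            have h3 : n'' - n - q • v = 0 := form_zero_int hS hρ₀ fun g hg => by
              rw [pr_sub, pr_smul]
              by_cases hgi : g = i
              · rw [hgi, hq, he.val]; ring
              · rw [k1 g hg hgi, he.zero g hg hgi]; ring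
            exact sub_eq_zero.1 h3
          have k3 : ∀ j, (α'' j : ℤ) = α j + q * pr u v j := fun j => by
            have e1 := hn j
            have e2 := hn'' j
            simp only at e1 e2
            have e3 := pr_sub (u := u) n'' n j
            rw [k2, pr_smul] at e3
            linarith
          have k4 : ∀ j, (α' j : ℤ) = α j + pr u v j := fun j => by
            have e1 := hn j
            have e2 := hn' j
            simp only at e1 e2
            have e3 := pr_sub (u := u) n' n j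
            rw [hnv] at e3
            linarith
          have k5 : 0 ≤ q := by
            have e1 := k3 i
            rw [hα0 i hi, he.val] at e1
            have e2 : (0 : ℤ) ≤ α'' i := Int.natCast_nonneg _
            by_contra h3
            push Not at h3
            push_cast at e1
            nlinarith
          have k6 : q ≤ 1 := by
            have e1 := k3 i'
            have e2 := k4 i'
            rw [hα'0 i' hi'ρ'] at e2
            have e3 : (1 : ℤ) ≤ α i' := by
              have h3 := (bound hS hD hρ₀ hi').1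
              rw [hrpD0] at h3
              exact_mod_cast h3
            have e4 : (0 : ℤ) ≤ α'' i' := Int.natCast_nonneg _
            by_contra h3
            push Not at h3
            push_cast at e2
            nlinarith
          have k7 : q = 0 ∨ q = 1 := by omega
          rcases k7 with k7 | k7
          · left
            ext j
            have := k3 j
            rw [k7] at this
            omega
          · right
            ext j
            have e1 := k3 j
            have e2 := k4 j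
            rw [k7] at e1
            omega
        · have e1 := hn j
          have e2 := hn' j
          simp only at e1 e2
          have e3 := pr_sub (u := u) n' n j
          rw [hnv] at e3
          linarith

end H90.TV
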