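import Pool.Agent.H90.TF.Sel
import Pool.Agent.H90.TV.Good

/-!
# Separation of points and tangent vectors
-/

set_option autoImplicit false

namespace H90.TV

open H90.TF MvPolynomial

variable {ι : Type} [Fintype ι] {N : ℕ} {u : ι → Fin N → ℤ} {S : Set (Set ι)}

/-- `y` represents a point of the hypersurface `f = 0`. -/
def OnX (S : Set (Set ι)) (f : MvPolynomial ι ℂ) (y : ι → ℂ) : Prop :=
  {i | y i = 0} ∈ S ∧ eval y f = 0

theorem vtx_mono {f : MvPolynomial ι ℂ} (hreg : ∀ y, OnX S f y → IsRegularCone u {i | y i = 0})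
    {ρ : Set ι} (hρ : ρ ∈ S) (h : ¬ IsRegularCone u ρ) : ∃ α ∈ f.support, ∀ l ∈ ρ, α l = 0 := by
  classical
  by_contra hcon
  push Not at hcon
  apply h
  have hz : {i | (fun i => if i ∈ ρ then (0 : ℂ) else 1) i = 0} = ρ := by
    ext i
    by_cases hi : i ∈ ρ <;> simp [hi]
  have h1 := hreg (fun i => if i ∈ ρ then (0 : ℂ) else 1) ⟨by rw [hz]; exact hρ, by
    rw [eval_eq']
    refine Finset.sum_eq_zero fun α hα => ?_
    obtain ⟨l, hl, hl'⟩ := hcon α hα
    rw [Finset.prod_eq_zero (Finset.mem_univ l), mul_zero]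
    simp [hl, hl']⟩
  rwa [hz] at h1

theorem exists_on_wall (hS : IsFan u S) {f : MvPolynomial ι ℂ} {D : ι → ℤ} (hf : IsHomog u f D)
    {ρ : Set ι} (hρ : IsMax S ρ) {i : ι} (hi : i ∈ ρ) {α α' : ι →₀ ℕ} (hα : α ∈ f.support)
    (hα' : α' ∈ f.support) (h0 : ∀ l ∈ ρ, α l = 0) (h0' : ∀ l ∈ ρ, l ≠ i → α' l = 0)
    (hi' : α' i ≠ 0) : ∃ y, {j | y j = 0} = ρ \ {i} ∧ eval y f = 0 := by
  classical
  let T := f.support.filter fun β => ∀ l ∈ ρ, l ≠ i → β l = 0
  let Q : Polynomial ℂ := ∑ β ∈ T, Polynomial.monomial (β i) (coeff β f)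
  have hT : ∀ β, β ∈ T ↔ β ∈ f.support ∧ ∀ l ∈ ρ, l ≠ i → β l = 0 := fun β => by
    simp only [T, Finset.mem_filter]
  have hinj : ∀ β ∈ T, ∀ γ ∈ T, β i = γ i → β = γ := by
    intro β hβ γ hγ h
    obtain ⟨h1, h2⟩ := (hT β).1 hβ
    obtain ⟨h3, h4⟩ := (hT γ).1 hγ
    ext j
    have h5 := val_one hS hρ (hf β h1) hi (fun g hg hgi => by rw [h2 g hg hgi]; rfl) j
    have h6 := val_one hS hρ (hf γ h3) hi (fun g hg hgi => by rw [h4 g hg hgi]; rfl) j
    rw [h, ← h6] at h5
    exact_mod_cast h5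
  have hcoeff : ∀ β ∈ T, Q.coeff (β i) = coeff β f := by
    intro β hβ
    simp only [Q, Polynomial.finsetSum_coeff, Polynomial.coeff_monomial]
    rw [Finset.sum_eq_single β]
    · simp
    · intro γ hγ hne
      rw [if_neg fun h => hne (hinj γ hγ β hβ h)]
    · intro h; exact absurd hβ h
  have hαT : α ∈ T := (hT α).2 ⟨hα, fun l hl _ => h0 l hl⟩
  have hαT' : α' ∈ T := (hT α').2 ⟨hα', h0'⟩
  have hdeg : Q.degree ≠ 0 := by
    intro h
    have h1 : Q.coeff (α' i) = 0 := by
      apply Polynomial.coeff_eq_zero_of_degree_lt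
      rw [h]
      exact_mod_cast Nat.pos_of_ne_zero hi'
    rw [hcoeff α' hαT'] at h1
    exact (mem_support_iff.1 hα') h1
  obtain ⟨s, hs⟩ := IsAlgClosed.exists_root Q hdeg
  have hs0 : s ≠ 0 := by
    rintro rfl
    rw [Polynomial.IsRoot.def, ← Polynomial.coeff_zero_eq_eval_zero] at hs
    have h1 := hcoeff α hαT
    rw [h0 i hi, hs] at h1
    exact (mem_support_iff.1 hα) h1.symm
  let y : ι → ℂ := fun j => if j ∈ ρ then (if j = i then s else 0) else 1
  refine ⟨y, ?_, ?_⟩
  · ext j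
    by_cases hj : j ∈ ρ
    · by_cases hji : j = i
      · simp [y, hji, hi, hs0]
      · simp [y, hj, hji]
    · simp [y, hj]
  · rw [eval_eq']
    have h1 : ∀ β ∈ f.support, coeff β f * ∏ j, y j ^ β j =
        if ∀ l ∈ ρ, l ≠ i → β l = 0 then coeff β f * s ^ β i else 0 := by
      intro β _
      split_ifs with h
      · congr 1
        rw [Finset.prod_eq_single i]
        · simp [y, hi]
        · intro j _ hji
          by_cases hj : j ∈ ρ
          · rw [h j hj hji, pow_zero]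
          · simp [y, hj]
        · intro h'; exact absurd (Finset.mem_univ _) h'
      · push Not at h
        obtain ⟨l, hl, hli, hne⟩ := h
        rw [Finset.prod_eq_zero (Finset.mem_univ l), mul_zero]
        simp [y, hl, hli, hne]
    rw [Finset.sum_congr rfl h1, ← Finset.sum_filter]
    have h2 : Q.eval s = ∑ β ∈ T, coeff β f * s ^ β i := by
      simp only [Q, Polynomial.eval_finsetSum, Polynomial.eval_monomial]
    have h3 : Q.eval s = 0 := hs
    rw [h3] at h2
    exact h2.symm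

theorem good_point (hS : IsFan u S) {D B : ι → ℤ} (hD : IsAmpleFree u S D)
    (hB : Big u S D B) {f : MvPolynomial ι ℂ} (hf : IsHomog u f D)
    (hreg : ∀ y, OnX S f y → IsRegularCone u {i | y i = 0}) {y : ι → ℂ} (hy : OnX S f y) :
    Good u f B {i | y i = 0} := by
  classical
  set τ : Set ι := {i | y i = 0} with hτd
  have hτ : τ ∈ S := hy.1
  by_cases hA : ∃ ρ, IsMax S ρ ∧ τ ⊆ ρ ∧ IsRegularCone u ρ
  · obtain ⟨ρ, h1, h2, h3⟩ := hA
    exact good_of_regular hS hD hB f h1 h2 h3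
  push Not at hA
  have hval : ∀ ρ, IsMax S ρ → ∀ α ∈ f.support, (∀ l ∈ ρ, α l = 0) → ∀ i, α i = 0 ↔ i ∈ ρ := by
    intro ρ hρ α hα h0 i
    refine ⟨fun h => ?_, h0 i⟩
    by_contra hi
    have h1 := (bound hS hD hρ hi).1
    rw [← lin_rp hS hρ (hf α hα) i, rp_nat h0 i, h] at h1
    norm_num at h1
  refine good_of_sit hS hD hB hf (fun ρ hρ τ' hτ' hT => vtx_mono hreg hρ.1 (hT.sing ρ hρ hτ')) hτ
    (hreg y hy) ⟨fun ρ hρ hτρ => ?_, fun ρ hρ hτρ i hi hiτ => ?_, hA⟩
  · obtain ⟨α, hα, h0⟩ := vtx_mono hreg hρ.1 (hA ρ hρ hτρ)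
    exact ⟨α, hval ρ hρ α hα h0, hf α hα⟩
  · obtain ⟨i', hi', hρ', -⟩ := neighbour hS hD hρ hi
    have hτρ' : τ ⊆ insert i' (ρ \ {i}) := fun g hg =>
      Set.mem_insert_of_mem _ ⟨hτρ hg, fun h' => hiτ (h' ▸ hg)⟩
    obtain ⟨α, hα, h0⟩ := vtx_mono hreg hρ.1 (hA ρ hρ hτρ)
    obtain ⟨α', hα', h0'⟩ := vtx_mono hreg hρ'.1 (hA _ hρ' hτρ')
    have hne : α' i ≠ 0 := by
      intro h
      have h1 := (hval _ hρ' α' hα' h0' i).1 h
      rcases h1 with h1 | h1
      · exact hi' (h1 ▸ hi)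
      · exact h1.2 rfl
    obtain ⟨z, hz1, hz2⟩ := exists_on_wall hS hf hρ hi hα hα' h0
      (fun l hl hli => h0' l (Set.mem_insert_of_mem _ ⟨hl, hli⟩)) hne
    have h1 := hreg z ⟨by rw [hz1]; exact hS.face ρ hρ.1 _ Set.sdiff_subset, hz2⟩
    rwa [hz1] at h1

/-- The exponent vector. -/
noncomputable def mo (u : ι → Fin N → ℤ) (B : ι → ℤ) (M : Fin N → ℤ) : ι →₀ ℕ :=
  Finsupp.equivFunOnFinite.symm fun j => (B j + pr u M j).toNat

theorem mo_cast {B : ι → ℤ} {M : Fin N → ℤ} (h : ∀ j, 0 ≤ B j + pr u M j) (j : ι) :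
    (mo u B M j : ℤ) = B j + pr u M j := by
  simp only [mo, Finsupp.equivFunOnFinite_symm_apply_apply]
  exact Int.toNat_of_nonneg (h j)

theorem homog_mono {B : ι → ℤ} {M : Fin N → ℤ} (h : ∀ j, 0 ≤ B j + pr u M j) (c : ℂ) :
    IsHomog u (monomial (mo u B M) c) B := by
  intro α hα
  have h1 := Finset.mem_singleton.1 (support_monomial_subset hα)
  subst h1
  exact ⟨M, fun j => mo_cast h j⟩

omit [Fintype ι] in
theorem homog_sub {F G : MvPolynomial ι ℂ} {B : ι → ℤ} (hF : IsHomog u F B)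
    (hG : IsHomog u G B) : IsHomog u (F - G) B := by
  classical
  intro α hα
  rcases Finset.mem_union.1 (support_sub _ F G hα) with h | h
  · exact hF α h
  · exact hG α h

/-- The value of the monomial. -/
noncomputable def vl (u : ι → Fin N → ℤ) (B : ι → ℤ) (M : Fin N → ℤ) (y : ι → ℂ) : ℂ :=
  ∏ j, y j ^ mo u B M j

theorem eval_mono (B : ι → ℤ) (M : Fin N → ℤ) (c : ℂ) (y : ι → ℂ) :
    eval y (monomial (mo u B M) c) = c * vl u B M y := by
  rw [eval_monomial, Finsupp.prod_fintype _ _ (by simp)]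
  rfl

theorem vl_ne {B : ι → ℤ} {M : Fin N → ℤ} (h : ∀ j, 0 ≤ B j + pr u M j) {y : ι → ℂ}
    (h0 : ∀ j, y j = 0 → B j + pr u M j = 0) : vl u B M y ≠ 0 := by
  unfold vl
  rw [Finset.prod_ne_zero_iff]
  intro j _
  by_cases hj : y j = 0
  · have h1 := mo_cast h j
    rw [h0 j hj] at h1
    have h2 : mo u B M j = 0 := by exact_mod_cast h1
    rw [h2, pow_zero]
    exact one_ne_zero
  · exact pow_ne_zero _ hj

theorem vl_zero {B : ι → ℤ} {M : Fin N → ℤ} (h : ∀ j, 0 ≤ B j + pr u M j) {y : ι → ℂ} {i : ι}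
    (hi : y i = 0) (h0 : 0 < B i + pr u M i) : vl u B M y = 0 := by
  unfold vl
  apply Finset.prod_eq_zero (Finset.mem_univ i)
  have h1 := mo_cast h i
  have h2 : mo u B M i ≠ 0 := by
    intro h3
    rw [h3] at h1
    push_cast at h1
    omega
  rw [hi, zero_pow h2]

theorem vl_ch {B : ι → ℤ} {M M' : Fin N → ℤ} (h : ∀ j, 0 ≤ B j + pr u M j)
    (h' : ∀ j, 0 ≤ B j + pr u M' j) {y : ι → ℂ} {τ : Set ι} (hy : {i | y i = 0} = τ)
    (h0 : ∀ j ∈ τ, B j + pr u M j = 0) (h0' : ∀ j ∈ τ, B j + pr u M' j = 0) :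
    vl u B M y = vl u B M' y * ch u (M - M') y := by
  unfold vl
  apply prod_pow_eq hy
  · intro l hl
    have e1 := h0 l hl
    have e2 := h0' l hl
    rw [pr_sub]; linarith
  · intro i
    rw [mo_cast h, mo_cast h', pr_sub]; ring

omit [Fintype ι] in
/-- the value of `f` on an orbit where it is a binomial -/
theorem eval_binomial {f : MvPolynomial ι ℂ} {τ : Set ι} {α α' : ι →₀ ℕ} (hα : α ∈ f.support)
    (hα' : α' ∈ f.support) (hne : α ≠ α')
    (hall : ∀ α'' ∈ f.support, (∀ l ∈ τ, α'' l = 0) → α'' = α ∨ α'' = α') (g : (ι →₀ ℕ) → ℂ)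
    (hg : ∀ β ∈ f.support, ¬ (∀ l ∈ τ, β l = 0) → g β = 0) :
    ∑ β ∈ f.support, g β = g α + g α' := by
  classical
  rw [← Finset.sum_subset (s₁ := {α, α'}) (s₂ := f.support)]
  · rw [Finset.sum_pair hne]
  · intro β hβ
    simp only [Finset.mem_insert, Finset.mem_singleton] at hβ
    rcases hβ with rfl | rfl
    · exact hα
    · exact hα'
  · intro β hβ hβ'
    simp only [Finset.mem_insert, Finset.mem_singleton] at hβ'
    apply hg β hβ
    intro h
    exact hβ' (hall β hβ h)

/-- extension of relations -/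
theorem exists_rel {τ : Set ι} (hr : IsRegularCone u τ) {y z : ι → ℂ} (hy : {i | y i = 0} = τ)
    (hz : {i | z i = 0} = τ)
    (h : ∀ m : Fin N → ℤ, (∀ l ∈ τ, pr u m l = 0) → ch u m y = ch u m z) :
    ∃ t, IsRel u t ∧ ∀ i, z i = t i * y i := by
  classical
  obtain ⟨n, hn⟩ := hr
  have hy' : ∀ i, y i = 0 ↔ i ∈ τ := fun i => by rw [← hy]; rfl
  have hz' : ∀ i, z i = 0 ↔ i ∈ τ := fun i => by rw [← hz]; rfl
  let r : ι → ℂ := fun i => if i ∈ τ then 1 else z i / y i
  have hr0 : ∀ i, r i ≠ 0 := fun i => by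
    by_cases hi : i ∈ τ
    · simp [r, hi]
    · simp only [r, if_neg hi]
      exact div_ne_zero (fun h => hi ((hz' i).1 h)) (fun h => hi ((hy' i).1 h))
  have hrm : ∀ m : Fin N → ℤ, (∀ l ∈ τ, pr u m l = 0) → ∏ i, r i ^ pr u m i = 1 := by
    intro m hm
    have h1 := h m hm
    unfold ch at h1
    have h2 : ∏ i, z i ^ pr u m i = (∏ i, r i ^ pr u m i) * ∏ i, y i ^ pr u m i := by
      rw [← Finset.prod_mul_distrib]
      refine Finset.prod_congr rfl fun i _ => ?_
      by_cases hi : i ∈ τ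
      · rw [hm i hi]; simp
      · simp only [r, if_neg hi]
        rw [← mul_zpow, div_mul_cancel₀ _ fun h => hi ((hy' i).1 h)]
    have h3 : ∏ i, y i ^ pr u m i ≠ 0 := by
      rw [Finset.prod_ne_zero_iff]
      intro i _
      by_cases hi : i ∈ τ
      · rw [hm i hi, zpow_zero]; exact one_ne_zero
      · exact zpow_ne_zero _ fun h => hi ((hy' i).1 h)
    rw [← h1] at h2
    exact (mul_eq_right₀ h3).1 h2.symm
  let t : ι → ℂ := fun i => if i ∈ τ then (∏ j, r j ^ pr u (n i) j)⁻¹ else r i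
  have hprod : ∀ m : Fin N → ℤ, ∏ i, r i ^ pr u m i ≠ 0 := fun m => by
    rw [Finset.prod_ne_zero_iff]
    exact fun i _ => zpow_ne_zero _ (hr0 i)
  refine ⟨t, ⟨fun i => ?_, fun m => ?_⟩, fun i => ?_⟩
  · by_cases hi : i ∈ τ
    · simp only [t, if_pos hi]
      exact inv_ne_zero (hprod _)
    · simp only [t, if_neg hi]
      exact hr0 i
  · set m0 := m - ∑ l ∈ fs τ, pr u m l • n l with hm0
    have hm0τ : ∀ l ∈ τ, pr u m0 l = 0 := by
      intro l hl
      rw [hm0, pr_sub, pr_sum, Finset.sum_eq_single l]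
      · rw [pr_smul, (hn l hl).1, mul_one, sub_self]
      · intro g hg hgl
        rw [pr_smul, (hn g (mem_fs.1 hg)).2 l hl (Ne.symm hgl), mul_zero]
      · intro h'; exact absurd (mem_fs.2 hl) h'
    have h1 := hrm m0 hm0τ
    have h2 : ∀ i, pr u m i = pr u m0 i + ∑ l ∈ fs τ, pr u m l * pr u (n l) i := fun i => by
      rw [hm0, pr_sub, pr_sum]
      simp only [pr_smul]
      ring
    have h3 : ∏ i, t i ^ pr u m i = (∏ i ∈ fs τ, t i ^ pr u m i) * ∏ i, r i ^ pr u m i := by
      have h6 : ∏ i ∈ fs τ, t i ^ pr u m i = ∏ i, if i ∈ fs τ then t i ^ pr u m i else 1 := by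
        rw [Finset.prod_ite_mem, Finset.univ_inter]
      rw [h6, ← Finset.prod_mul_distrib]
      refine Finset.prod_congr rfl fun i _ => ?_
      by_cases hi : i ∈ τ
      · have : r i = 1 := by simp [r, hi]
        rw [if_pos (mem_fs.2 hi), this, one_zpow, mul_one]
      · rw [if_neg fun h => hi (mem_fs.1 h), one_mul]
        simp only [t, if_neg hi]
    have h4 : ∏ i, r i ^ pr u m i = ∏ l ∈ fs τ, (∏ i, r i ^ pr u (n l) i) ^ pr u m l := by
      have h5 : ∏ i, r i ^ pr u m i = (∏ i, r i ^ pr u m0 i) *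
          ∏ i, r i ^ (∑ l ∈ fs τ, pr u m l * pr u (n l) i) := by
        rw [← Finset.prod_mul_distrib]
        refine Finset.prod_congr rfl fun i _ => ?_
        rw [h2 i, zpow_add₀ (hr0 i)]
      rw [h5, h1, one_mul]
      have h6 : ∀ i, r i ^ (∑ l ∈ fs τ, pr u m l * pr u (n l) i) =
          ∏ l ∈ fs τ, (r i ^ pr u (n l) i) ^ pr u m l := fun i => by
        have h7 : ∀ s : Finset ι, r i ^ (∑ l ∈ s, pr u m l * pr u (n l) i) =
            ∏ l ∈ s, (r i ^ pr u (n l) i) ^ pr u m l := by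
          intro s
          induction s using Finset.induction_on with
          | empty => simp
          | insert a s ha ih =>
            rw [Finset.sum_insert ha, Finset.prod_insert ha, zpow_add₀ (hr0 i), ih, ← zpow_mul,
              mul_comm (pr u (n a) i)]
        exact h7 _
      simp only [h6]
      rw [Finset.prod_comm]
      refine Finset.prod_congr rfl fun l _ => ?_
      rw [Finset.prod_zpow]
    rw [h3, h4, ← Finset.prod_mul_distrib]
    refine Finset.prod_eq_one fun l hl => ?_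
    simp only [t, if_pos (mem_fs.1 hl)]
    rw [inv_zpow, inv_mul_cancel₀ (zpow_ne_zero _ (hprod _))]
  · by_cases hi : i ∈ τ
    · rw [(hz' i).2 hi, (hy' i).2 hi, mul_zero]
    · simp only [t, r, if_neg hi]
      rw [div_mul_cancel₀ _ fun h => hi ((hy' i).1 h)]

/-- **Points are separated.** -/
theorem separate {B : ι → ℤ} {f : MvPolynomial ι ℂ} {y z : ι → ℂ} (hy : OnX S f y) (hz : OnX S f z)
    (hgy : Good u f B {i | y i = 0}) (hgz : Good u f B {i | z i = 0})
    (hr : IsRegularCone u {i | y i = 0})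
    (h : ∀ F, IsHomog u F B → eval y F = 0 → eval z F = 0) :
    ∃ t, IsRel u t ∧ ∀ i, z i = t i * y i := by
  classical
  -- the products of the values
  have hns : ∀ M M' : Fin N → ℤ, (∀ j, 0 ≤ B j + pr u M j) → (∀ j, 0 ≤ B j + pr u M' j) →
      vl u B M y * vl u B M' z = vl u B M' y * vl u B M z := by
    intro M M' hM hM'
    have h1 := h (monomial (mo u B M') (vl u B M y) - monomial (mo u B M) (vl u B M' y))
      (homog_sub (homog_mono hM' _) (homog_mono hM _)) (by
        rw [map_sub, eval_mono, eval_mono]; ring)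
    rw [map_sub, eval_mono, eval_mono] at h1
    linear_combination h1
  obtain ⟨My, hMy1, hMy2⟩ := hgy.s0
  obtain ⟨Mz, hMz1, hMz2⟩ := hgz.s0
  have hvy := vl_ne hMy2 (y := y) fun j hj => hMy1 j hj
  have hvz := vl_ne hMz2 (y := z) fun j hj => hMz1 j hj
  have hyz : {i | y i = 0} = {i | z i = 0} := by
    ext i
    constructor
    · intro hi
      by_contra hi'
      obtain ⟨M, h1, h2, h3⟩ := hgz.s1 i hi'
      have h4 := vl_ne h2 (y := z) fun j hj => h1 j hj
      have h5 := vl_zero h2 (y := y) hi h3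
      have h6 := hns My M hMy2 h2
      rw [h5, zero_mul] at h6
      exact mul_ne_zero hvy h4 h6
    · intro hi
      by_contra hi'
      obtain ⟨M, h1, h2, h3⟩ := hgy.s1 i hi'
      have h4 := vl_ne h2 (y := y) fun j hj => h1 j hj
      have h5 := vl_zero h2 (y := z) hi h3
      have h6 := hns M Mz h2 hMz2
      rw [h5, mul_zero] at h6
      exact mul_ne_zero h4 hvz h6
  set τ : Set ι := {i | y i = 0} with hτ
  have hzτ : {i | z i = 0} = τ := hyz.symm
  have hyτ : {i | y i = 0} = τ := rfl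
  -- the subgroup
  let K : AddSubgroup (Fin N → ℤ) :=
    { carrier := {m | (∀ l ∈ τ, pr u m l = 0) ∧ ch u m y = ch u m z}
      zero_mem' := ⟨fun _ _ => by simp [pr], by simp [ch, pr]⟩
      add_mem' := fun {a b} ha hb => ⟨fun l hl => by rw [pr_add, ha.1 l hl, hb.1 l hl, add_zero], by
        rw [ch_add hyτ ha.1 hb.1, ch_add hzτ ha.1 hb.1, ha.2, hb.2]⟩
      neg_mem' := fun {a} ha => ⟨fun l hl => by
        have h2 : pr u (-a) l = -pr u a l := by simp [pr]
        rw [h2, ha.1 l hl, neg_zero], by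
        rw [ch_neg hyτ ha.1, ch_neg hzτ ha.1, ha.2]⟩ }
  have hK : Contains u B τ K := by
    intro m m' h1 h2 h3 h4
    refine ⟨fun l hl => by
      have e1 := h1 l hl
      have e2 := h2 l hl
      rw [pr_sub]; linarith, ?_⟩
    have e1 := vl_ch h3 h4 hyτ h1 h2
    have e2 := vl_ch h3 h4 hzτ h1 h2
    have e3 := hns m m' h3 h4
    rw [e1, e2] at e3
    have e4 := vl_ne h4 (y := y) fun j hj => h2 j hj
    have e5 := vl_ne h4 (y := z) fun j hj => h2 j (by rw [← hzτ]; exact hj)
    have e6 : vl u B m' y * vl u B m' z * ch u (m - m') y =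
        vl u B m' y * vl u B m' z * ch u (m - m') z := by linear_combination e3
    exact mul_left_cancel₀ (mul_ne_zero e4 e5) e6
  have hF : BinomIn u f τ K := by
    intro α hα α' hα' h0 h0' hne hall m hm
    have hmτ : ∀ l ∈ τ, pr u m l = 0 := fun l hl => by
      have := hm l
      rw [h0 l hl, h0' l hl] at this
      push_cast at this
      linarith
    refine ⟨hmτ, ?_⟩
    have key : ∀ w : ι → ℂ, {i | w i = 0} = τ → eval w f = 0 →
        coeff α f + coeff α' f * ch u m w = 0 := by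
      intro w hw hfw
      rw [eval_eq', eval_binomial hα hα' hne hall] at hfw
      · rw [prod_pow_eq hw hmτ hm] at hfw
        have h1 : ∏ i, w i ^ α i ≠ 0 := by
          rw [Finset.prod_ne_zero_iff]
          intro i _
          by_cases hi : i ∈ τ
          · rw [h0 i hi, pow_zero]; exact one_ne_zero
          · exact pow_ne_zero _ fun h' => hi (by rw [← hw]; exact h')
        have h2 : (coeff α f + coeff α' f * ch u m w) * ∏ i, w i ^ α i = 0 := by
          linear_combination hfw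
        exact (mul_eq_zero.1 h2).resolve_right h1
      · intro β _ hβ
        push Not at hβ
        obtain ⟨l, hl, hl'⟩ := hβ
        have hwl : w l = 0 := by
          rw [← hw] at hl; exact hl
        rw [Finset.prod_eq_zero (Finset.mem_univ l), mul_zero]
        rw [hwl, zero_pow hl']
    have k1 := key y hyτ hy.2
    have k2 := key z hzτ hz.2
    have k3 : coeff α' f ≠ 0 := mem_support_iff.1 hα'
    have k4 : coeff α' f * ch u m y = coeff α' f * ch u m z := by linear_combination k1 - k2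
    exact mul_left_cancel₀ k3 k4
  exact exists_rel hr hyτ hzτ fun m hm => (hgy.s3 K hK hF m hm).2

/-- **Tangent vectors are separated.** -/
theorem separate_tangent {B : ι → ℤ} {f : MvPolynomial ι ℂ} {y w : ι → ℂ} (hy : OnX S f y)
    (hgy : Good u f B {i | y i = 0}) (hr : IsRegularCone u {i | y i = 0})
    (hw : ∑ i, w i * eval y (pderiv i f) = 0)
    (h : ∀ F, IsHomog u F B → eval y F = 0 → ∑ i, w i * eval y (pderiv i F) = 0) :
    ∃ s : ι → ℂ, (∀ k, ∑ i, s i * (u i k : ℂ) = 0) ∧ ∀ i, w i = s i * y i := by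
  classical
  let dw : MvPolynomial ι ℂ → ℂ := fun F => ∑ i, w i * eval y (pderiv i F)
  have hdsub : ∀ F G, dw (F - G) = dw F - dw G := fun F G => by
    simp only [dw, map_sub, mul_sub, Finset.sum_sub_distrib]
  have hdC : ∀ (c : ℂ) (α : ι →₀ ℕ), dw (monomial α c) = c * dw (monomial α 1) := fun c α => by
    have h1 : monomial α c = C c * monomial α (1 : ℂ) := by rw [C_mul_monomial, mul_one]
    simp only [dw]
    rw [h1, Finset.mul_sum]
    refine Finset.sum_congr rfl fun i _ => ?_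
    rw [pderiv_C_mul, map_mul, eval_C]
    ring
  have hns : ∀ M M' : Fin N → ℤ, (∀ j, 0 ≤ B j + pr u M j) → (∀ j, 0 ≤ B j + pr u M' j) →
      vl u B M y * dw (monomial (mo u B M') 1) = vl u B M' y * dw (monomial (mo u B M) 1) := by
    intro M M' hM hM'
    have h1 := h (monomial (mo u B M') (vl u B M y) - monomial (mo u B M) (vl u B M' y))
      (homog_sub (homog_mono hM' _) (homog_mono hM _)) (by
        rw [map_sub, eval_mono, eval_mono]; ring)
    have h2 : dw (monomial (mo u B M') (vl u B M y) - monomial (mo u B M) (vl u B M' y)) = 0 := h1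
    rw [hdsub, hdC, hdC (vl u B M' y)] at h2
    linear_combination h2
  obtain ⟨My, hMy1, hMy2⟩ := hgy.s0
  have hvy := vl_ne hMy2 (y := y) fun j hj => hMy1 j hj
  set τ : Set ι := {i | y i = 0} with hτ
  have hyτ : {i | y i = 0} = τ := rfl
  have hτi : ∀ i, i ∈ τ ↔ y i = 0 := fun i => Iff.rfl
  -- the components of `w` on `τ`
  have hwτ : ∀ l ∈ τ, w l = 0 := by
    intro l hl
    obtain ⟨M, h1, h2, h3⟩ := hgy.s2 l hl
    have h4 := hns My M hMy2 h3
    rw [vl_zero h3 ((hτi l).1 hl) (by rw [h1]; norm_num), zero_mul] at h4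
    have h5 := (mul_eq_zero.1 h4).resolve_left hvy
    have hml : mo u B M l = 1 := by
      have := mo_cast h3 l
      rw [h1] at this
      exact_mod_cast this
    have hmj : ∀ j ∈ τ, j ≠ l → mo u B M j = 0 := fun j hj hjl => by
      have := mo_cast h3 j
      rw [h2 j hj hjl] at this
      exact_mod_cast this
    simp only [dw] at h5
    rw [Finset.sum_eq_single l] at h5
    · rcases mul_eq_zero.1 h5 with h6 | h6
      · exact h6
      · exfalso
        rw [pderiv_monomial, eval_monomial, Finsupp.prod_fintype _ _ (by simp)] at h6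
        rw [hml] at h6
        simp only [Nat.cast_one, mul_one, one_mul] at h6
        rw [Finset.prod_eq_zero_iff] at h6
        obtain ⟨j, -, hj⟩ := h6
        have hyj : y j = 0 := (pow_eq_zero_iff fun h7 => by
          rw [h7, pow_zero] at hj; exact one_ne_zero hj).1 hj
        by_cases hjl : j = l
        · subst hjl
          rw [Finsupp.tsub_apply, hml, Finsupp.single_eq_same, Nat.sub_self, pow_zero] at hj
          exact one_ne_zero hj
        · rw [Finsupp.tsub_apply, hmj j ((hτi j).2 hyj) hjl, Nat.zero_sub, pow_zero] at hj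
          exact one_ne_zero hj
    · intro j _ hjl
      rw [pderiv_monomial, eval_monomial, Finsupp.prod_fintype _ _ (by simp)]
      rw [Finset.prod_eq_zero (Finset.mem_univ l)]
      · ring
      · have : (mo u B M - Finsupp.single j 1 : ι →₀ ℕ) l = 1 := by
          rw [Finsupp.tsub_apply, hml, Finsupp.single_eq_of_ne (Ne.symm hjl), Nat.sub_zero]
        rw [this, (hτi l).1 hl, pow_one]
    · intro h'; exact absurd (Finset.mem_univ _) h'
  let s : ι → ℂ := fun i => if i ∈ τ then 0 else w i / y i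
  have hsy : ∀ i, w i = s i * y i := fun i => by
    by_cases hi : i ∈ τ
    · rw [hwτ i hi, (hτi i).1 hi, mul_zero]
    · simp only [s, if_neg hi]
      rw [div_mul_cancel₀ _ fun h' => hi ((hτi i).2 h')]
  -- the logarithmic derivative
  have hdlog : ∀ F : MvPolynomial ι ℂ,
      dw F = ∑ α ∈ F.support, coeff α F * ((∏ k, y k ^ α k) * ∑ i, s i * α i) := by
    intro F
    simp only [dw]
    have h1 : ∀ i, w i * eval y (pderiv i F) =
        ∑ α ∈ F.support, s i * (coeff α F * (α i * ∏ k, y k ^ α k)) := fun i => by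
      rw [hsy i, mul_assoc, eval_X_mul_pderiv, Finset.mul_sum]
    simp only [h1]
    rw [Finset.sum_comm]
    refine Finset.sum_congr rfl fun α _ => ?_
    rw [Finset.mul_sum, Finset.mul_sum]
    refine Finset.sum_congr rfl fun i _ => by ring
  have hdmono : ∀ α : ι →₀ ℕ, dw (monomial α 1) = (∏ k, y k ^ α k) * ∑ i, s i * α i := by
    intro α
    rw [hdlog, support_monomial, if_neg one_ne_zero, Finset.sum_singleton, coeff_monomial,
      if_pos rfl, one_mul]
  let K : AddSubgroup (Fin N → ℤ) :=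
    { carrier := {m | ∑ i, s i * (pr u m i : ℤ) = 0}
      zero_mem' := by simp [pr]
      add_mem' := fun {a b} ha hb => by
        have ha' : ∑ i, s i * (pr u a i : ℤ) = 0 := ha
        have hb' : ∑ i, s i * (pr u b i : ℤ) = 0 := hb
        show ∑ i, s i * (pr u (a + b) i : ℤ) = 0
        simp only [pr_add, Int.cast_add, mul_add, Finset.sum_add_distrib, ha', hb', add_zero]
      neg_mem' := fun {a} ha => by
        have ha' : ∑ i, s i * (pr u a i : ℤ) = 0 := ha
        show ∑ i, s i * (pr u (-a) i : ℤ) = 0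
        have h2 : ∀ l, pr u (-a) l = -pr u a l := fun l => by simp [pr]
        simp only [h2, Int.cast_neg, mul_neg, Finset.sum_neg_distrib, ha', neg_zero] }
  have hK : Contains u B τ K := by
    intro m m' h1 h2 h3 h4
    show ∑ i, s i * (pr u (m - m') i : ℤ) = 0
    have e1 := hns m m' h3 h4
    rw [hdmono, hdmono] at e1
    have e2 := vl_ne h3 (y := y) fun j hj => h1 j hj
    have e3 := vl_ne h4 (y := y) fun j hj => h2 j hj
    have e4 : vl u B m y * vl u B m' y * (∑ i, s i * (mo u B m i : ℂ) -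
        ∑ i, s i * (mo u B m' i : ℂ)) = 0 := by
      unfold vl at e1 ⊢
      linear_combination -e1
    have e5 := (mul_eq_zero.1 e4).resolve_left (mul_ne_zero e2 e3)
    rw [← Finset.sum_sub_distrib] at e5
    rw [← e5]
    refine Finset.sum_congr rfl fun i _ => ?_
    have e6 : ((mo u B m i : ℤ) : ℂ) = ((B i + pr u m i : ℤ) : ℂ) := by rw [mo_cast h3 i]
    have e7 : ((mo u B m' i : ℤ) : ℂ) = ((B i + pr u m' i : ℤ) : ℂ) := by rw [mo_cast h4 i]
    push_cast at e6 e7
    rw [e6, e7, pr_sub]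
    push_cast
    ring
  have hF : BinomIn u f τ K := by
    intro α hα α' hα' h0 h0' hne hall m hm
    show ∑ i, s i * (pr u m i : ℤ) = 0
    have hmτ : ∀ l ∈ τ, pr u m l = 0 := fun l hl => by
      have := hm l
      rw [h0 l hl, h0' l hl] at this
      push_cast at this
      linarith
    have hz : ∀ β ∈ f.support, ¬ (∀ l ∈ τ, β l = 0) → ∏ k, y k ^ β k = 0 := by
      intro β _ hβ
      push Not at hβ
      obtain ⟨l, hl, hl'⟩ := hβ
      apply Finset.prod_eq_zero (Finset.mem_univ l)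
      rw [(hτi l).1 hl, zero_pow hl']
    have k1 := hy.2
    rw [eval_eq', eval_binomial hα hα' hne hall _ (fun β hβ hβ' => by
      rw [hz β hβ hβ', mul_zero])] at k1
    have k2 : dw f = 0 := hw
    rw [hdlog, eval_binomial hα hα' hne hall _ (fun β hβ hβ' => by
      rw [hz β hβ hβ', zero_mul, mul_zero])] at k2
    have k3 : (∏ i, y i ^ α' i) ≠ 0 := by
      rw [Finset.prod_ne_zero_iff]
      intro i _
      by_cases hi : i ∈ τ
      · rw [h0' i hi, pow_zero]; exact one_ne_zero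
      · exact pow_ne_zero _ fun h' => hi ((hτi i).2 h')
    have k4 : coeff α' f ≠ 0 := mem_support_iff.1 hα'
    have k5 : coeff α' f * (∏ i, y i ^ α' i) *
        (∑ i, s i * (α' i : ℂ) - ∑ i, s i * (α i : ℂ)) = 0 := by
      linear_combination k2 - (∑ i, s i * (α i : ℂ)) * k1
    have k6 := (mul_eq_zero.1 k5).resolve_left (mul_ne_zero k4 k3)
    rw [← Finset.sum_sub_distrib] at k6
    rw [← k6]
    refine Finset.sum_congr rfl fun i _ => ?_
    have e6 : ((α' i : ℤ) : ℂ) = ((α i + pr u m i : ℤ) : ℂ) := by rw [hm i]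
    push_cast at e6
    rw [e6]
    ring
  have hall : ∀ m : Fin N → ℤ, (∀ j ∈ τ, pr u m j = 0) → ∑ i, s i * (pr u m i : ℤ) = 0 :=
    fun m hm => hgy.s3 K hK hF m hm
  -- the extension
  obtain ⟨n, hn⟩ := hr
  let s' : ι → ℂ := fun i => if i ∈ τ then -∑ j, s j * (pr u (n i) j : ℤ) else s i
  refine ⟨s', fun k => ?_, fun i => ?_⟩
  · have hgen : ∀ m : Fin N → ℤ, ∑ i, s' i * (pr u m i : ℤ) = 0 := by
      intro m
      set m0 := m - ∑ l ∈ fs τ, pr u m l • n l with hm0
      have hm0τ : ∀ l ∈ τ, pr u m0 l = 0 := by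
        intro l hl
        rw [hm0, pr_sub, pr_sum, Finset.sum_eq_single l]
        · rw [pr_smul, (hn l hl).1, mul_one, sub_self]
        · intro g hg hgl
          rw [pr_smul, (hn g (mem_fs.1 hg)).2 l hl (Ne.symm hgl), mul_zero]
        · intro h'; exact absurd (mem_fs.2 hl) h'
      have h1 := hall m0 hm0τ
      have h2 : ∀ i, pr u m0 i = pr u m i - ∑ l ∈ fs τ, pr u m l * pr u (n l) i := fun i => by
        rw [hm0, pr_sub, pr_sum]
        simp only [pr_smul]
      have h3 : ∑ i, s i * (pr u m i : ℤ) =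
          ∑ l ∈ fs τ, ((pr u m l : ℤ) : ℂ) * ∑ i, s i * (pr u (n l) i : ℤ) := by
        have h4 : ∑ i, s i * ((∑ l ∈ fs τ, pr u m l * pr u (n l) i : ℤ) : ℂ) =
            ∑ l ∈ fs τ, ((pr u m l : ℤ) : ℂ) * ∑ i, s i * (pr u (n l) i : ℤ) := by
          simp only [Int.cast_sum, Int.cast_mul, Finset.mul_sum]
          rw [Finset.sum_comm]
          refine Finset.sum_congr rfl fun l _ => Finset.sum_congr rfl fun i _ => by ring
        rw [← h4]
        simp only [h2, Int.cast_sub, mul_sub, Finset.sum_sub_distrib] at h1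
        linear_combination h1
      have h5 : ∑ i, s' i * (pr u m i : ℤ) = ∑ i, s i * (pr u m i : ℤ) +
          ∑ l ∈ fs τ, s' l * (pr u m l : ℤ) := by
        have h6 : ∑ l ∈ fs τ, s' l * (pr u m l : ℤ) =
            ∑ l, if l ∈ fs τ then s' l * (pr u m l : ℤ) else 0 := by
          rw [Finset.sum_ite_mem, Finset.univ_inter]
        rw [h6, ← Finset.sum_add_distrib]
        refine Finset.sum_congr rfl fun i _ => ?_
        by_cases hi : i ∈ τ
        · simp only [mem_fs, s, if_pos hi]; ring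
        · simp only [mem_fs, s', if_neg hi]; ring
      rw [h5, h3, ← Finset.sum_add_distrib]
      refine Finset.sum_eq_zero fun l hl => ?_
      simp only [s', if_pos (mem_fs.1 hl)]
      ring
    have h1 := hgen (Pi.single k 1)
    rw [← h1]
    refine Finset.sum_congr rfl fun i _ => ?_
    congr 1
    have h2 : pr u (Pi.single k (1 : ℤ)) i = u i k := by
      unfold pr
      rw [Finset.sum_eq_single k]
      · simp
      · intro l _ hl; simp [Pi.single_eq_of_ne hl]
      · simp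
    rw [h2]
  · by_cases hi : i ∈ τ
    · rw [hwτ i hi, (hτi i).1 hi, mul_zero]
    · simp only [s', if_neg hi]
      exact hsy i

/-- **The main theorem.** -/
theorem main (hS : IsFan u S) {k : ℕ} (hk : N + 1 ≤ k) {f : MvPolynomial ι ℂ} {D : ι → ℤ}
    (hf : IsHomog u f D) (hD : IsAmpleFree u S D)
    (hreg : ∀ y, OnX S f y → IsRegularCone u {i | y i = 0}) {A : Fin k → ι → ℤ}
    (hA : ∀ q, IsAmpleFree u S (A q)) :
    (∀ y, OnX S f y → ∃ F, IsHomog u F (fun i => D i + ∑ q, A q i - 1) ∧ eval y F ≠ 0) ∧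
    (∀ y z, OnX S f y → OnX S f z → (¬ ∃ t, IsRel u t ∧ ∀ i, z i = t i * y i) →
      ∃ F, IsHomog u F (fun i => D i + ∑ q, A q i - 1) ∧ eval y F = 0 ∧ eval z F ≠ 0) ∧
    ∀ y w : ι → ℂ, OnX S f y → ∑ i, w i * eval y (pderiv i f) = 0 →
      (¬ ∃ s : ι → ℂ, (∀ k, ∑ i, s i * (u i k : ℂ) = 0) ∧ ∀ i, w i = s i * y i) →
      ∃ F, IsHomog u F (fun i => D i + ∑ q, A q i - 1) ∧ eval y F = 0 ∧
        ∑ i, w i * eval y (pderiv i F) ≠ 0 := by
  classical
  have hB := big hS hk D hA
  have hg : ∀ y, OnX S f y → Good u f (fun i => D i + ∑ q, A q i - 1) {i | y i = 0} :=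
    fun y hy => good_point hS hD hB hf hreg hy
  refine ⟨fun y hy => ?_, fun y z hy hz hne => ?_, fun y w hy hw hne => ?_⟩
  · obtain ⟨M, h1, h2⟩ := (hg y hy).s0
    refine ⟨monomial (mo u _ M) 1, homog_mono h2 1, ?_⟩
    rw [eval_mono, one_mul]
    exact vl_ne h2 fun j hj => h1 j hj
  · by_contra hcon
    push Not at hcon
    exact hne (separate hy hz (hg y hy) (hg z hz) (hreg y hy) hcon)
  · by_contra hcon
    push Not at hcon
    exact hne (separate_tangent hy (hg y hy) (hreg y hy) hw hcon)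

end H90.TV
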