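import Pool.Agent.H90.TV.Edge

/-!
# The two-dimensional faces
-/

set_option autoImplicit false

namespace H90.TV

open H90.TF MvPolynomial

variable {ι : Type} [Fintype ι] {N : ℕ} {u : ι → Fin N → ℤ} {S : Set (Set ι)}

/-- change of the cone: the new cone is `ρ' = ρ \ {i} ∪ {i'}` -/
theorem change (hS : IsFan u S) {ρ ρ' : Set ι} (hρ : IsMax S ρ) (hρ' : IsMax S ρ') {i i' l : ι}
    (hi : i ∈ ρ) (hl : l ∈ ρ) (hil : i ≠ l) (hi' : i' ∉ ρ) (h : ρ' = insert i' (ρ \ {i})) (j : ι) :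
    xx u ρ' l j = xx u ρ l j + xx u ρ' l i * xx u ρ i j := by
  have hlρ' : l ∈ ρ' := by rw [h]; exact Set.mem_insert_of_mem _ ⟨hl, hil.symm⟩
  have h1 := pr_two hS hρ (Ed u ρ' l) hi hl hil (fun g hg hgi hgl => by
    exact (Ed_spec hS hρ' l hlρ').2 g (by rw [h]; exact Set.mem_insert_of_mem _ ⟨hg, hgi⟩) hgl) j
  rw [(Ed_spec hS hρ' l hlρ').1, one_mul] at h1
  unfold xx at h1 ⊢
  rw [h1]; ring

theorem change' (hS : IsFan u S) {ρ ρ' : Set ι} (hρ : IsMax S ρ) (hρ' : IsMax S ρ') {i i' : ι}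
    (hi : i ∈ ρ) (hi' : i' ∉ ρ) (h : ρ' = insert i' (ρ \ {i})) (j : ι) :
    xx u ρ' i' j = xx u ρ' i' i * xx u ρ i j := by
  have hiρ' : i' ∈ ρ' := by rw [h]; exact Set.mem_insert _ _
  exact pr_one hS hρ (Ed u ρ' i') hi (fun g hg hgi =>
    (Ed_spec hS hρ' i' hiρ').2 g (by rw [h]; exact Set.mem_insert_of_mem _ ⟨hg, hgi⟩)
      (fun h' => hi' (h' ▸ hg))) j

theorem rp_change (hS : IsFan u S) {ρ ρ' : Set ι} (hρ : IsMax S ρ) (hρ' : IsMax S ρ') {i i' : ι}
    (hi : i ∈ ρ) (h : ρ' = insert i' (ρ \ {i})) (a : ι → ℤ) (j : ι) :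
    rp u ρ' a j = rp u ρ a j + rp u ρ' a i * xx u ρ i j := by
  let x : Fin N → ℝ := ∑ l ∈ fs ρ, (a l : ℝ) • Ed u ρ l - ∑ l ∈ fs ρ', (a l : ℝ) • Ed u ρ' l
  have hx : ∀ j, pr u x j = rp u ρ' a j - rp u ρ a j := by
    intro j
    simp only [x]
    rw [pr_sub, pr_sum, pr_sum]
    simp only [pr_smul]
    unfold rp xx
    ring
  have h1 := pr_one hS hρ x hi (fun g hg hgi => by
    rw [hx, rp_of_mem hS hρ _ hg, rp_of_mem hS hρ' _ (by
      rw [h]; exact Set.mem_insert_of_mem _ ⟨hg, hgi⟩), sub_zero]) j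
  rw [hx, hx, rp_of_mem hS hρ _ hi, sub_zero] at h1
  linarith

theorem square_le (hS : IsFan u S) {D B : ι → ℤ} (hD : IsAmpleFree u S D) (hB : Big u S D B)
    {τ : Set ι} (hT : Sit u S D τ) {K : AddSubgroup (Fin N → ℤ)} (hK : Contains u B τ K)
    {ρ ρ' : Set ι} (hρ : IsMax S ρ) (hρ' : IsMax S ρ') (hτρ : τ ⊆ ρ) {i l i' : ι} (hi : i ∈ ρ)
    (hiτ : i ∉ τ) (hl : l ∈ ρ) (hlτ : l ∉ τ) (hil : i ≠ l) (hi' : i' ∉ ρ)
    (h : ρ' = insert i' (ρ \ {i})) (hx : xx u ρ i i' < 0) (hy : 0 ≤ xx u ρ l i') {p p' : ℤ}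
    {v v1 v1' : Fin N → ℤ} (e1 : IsEdge u D ρ i p v) (e2 : IsEdge u D ρ l p v1)
    (e3 : IsEdge u D ρ' l p' v1') (hpp : p ≤ p') (m : Fin N → ℤ)
    (hm : ∀ g ∈ ρ, g ≠ i → g ≠ l → pr u m g = 0) : m ∈ K := by
  have hi'ρ' : i' ∈ ρ' := by rw [h]; exact Set.mem_insert _ _
  have hlρ' : l ∈ ρ' := by rw [h]; exact Set.mem_insert_of_mem _ ⟨hl, hil.symm⟩
  refine square_core hS hD hB hT hK hρ hτρ hi hiτ hl hlτ hil e1 e2 (fun j hj => ?_) m hm
  have hp : (2 : ℝ) ≤ p := by exact_mod_cast e1.two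
  have hp' : (p : ℝ) ≤ p' := by exact_mod_cast hpp
  by_cases h1 : 0 ≤ xx u ρ i j
  · have := e2.nonneg j
    nlinarith
  by_cases h2 : 0 ≤ xx u ρ l j
  · have := e1.nonneg j
    nlinarith
  push Not at h1 h2
  -- the slope
  have h3 := change hS hρ hρ' hi hl hil hi' h i'
  rw [xx_ne hS hρ' hlρ' hi'ρ' (fun h' => hi' (h' ▸ hl))] at h3
  have h4 : 0 ≤ xx u ρ' l i := by
    by_contra h5
    push Not at h5
    nlinarith
  -- the length of the edge
  have h5 := rp_change hS hρ hρ' hi h D i'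
  rw [rp_of_mem hS hρ' _ hi'ρ'] at h5
  have h6 := e1.nonneg i'
  have h7 : (p : ℝ) ≤ rp u ρ' D i := by
    by_contra h8
    push Not at h8
    nlinarith
  have h8 := e3.nonneg j
  rw [rp_change hS hρ hρ' hi h D j, change hS hρ hρ' hi hl hil hi' h j] at h8
  have h9 : (p : ℝ) * xx u ρ i j ≥ rp u ρ' D i * xx u ρ i j := by nlinarith
  have h10 : (p : ℝ) * xx u ρ l j ≥ p' * xx u ρ l j := by nlinarith
  have h11 : (p' : ℝ) * (xx u ρ' l i * xx u ρ i j) ≤ 0 := by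
    have : xx u ρ' l i * xx u ρ i j ≤ 0 := mul_nonpos_of_nonneg_of_nonpos h4 h1.le
    nlinarith
  nlinarith

theorem square (hS : IsFan u S) {D B : ι → ℤ} (hD : IsAmpleFree u S D) (hB : Big u S D B)
    {τ : Set ι} (hT : Sit u S D τ) {K : AddSubgroup (Fin N → ℤ)} (hK : Contains u B τ K)
    {ρ ρ' : Set ι} (hρ : IsMax S ρ) (hρ' : IsMax S ρ') (hτρ : τ ⊆ ρ) {i l i' : ι} (hi : i ∈ ρ)
    (hiτ : i ∉ τ) (hl : l ∈ ρ) (hlτ : l ∉ τ) (hil : i ≠ l) (hi' : i' ∉ ρ)
    (h : ρ' = insert i' (ρ \ {i})) (hx : xx u ρ i i' < 0) (hy : 0 ≤ xx u ρ l i') (m : Fin N → ℤ)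
    (hm : ∀ g ∈ ρ, g ≠ i → g ≠ l → pr u m g = 0) : m ∈ K := by
  have hi'ρ' : i' ∈ ρ' := by rw [h]; exact Set.mem_insert _ _
  have hlρ' : l ∈ ρ' := by rw [h]; exact Set.mem_insert_of_mem _ ⟨hl, hil.symm⟩
  have hi'τ : i' ∉ τ := fun h' => hi' (hτρ h')
  have hτρ' : τ ⊆ ρ' := fun g hg => by
    rw [h]; exact Set.mem_insert_of_mem _ ⟨hτρ hg, fun h' => hiτ (h' ▸ hg)⟩
  have hii' : i ≠ i' := fun h' => hi' (h' ▸ hi)
  have hiρ' : i ∉ ρ' := by
    rw [h]
    rintro (h' | h')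
    · exact hii' h'
    · exact h'.2 rfl
  have hi'l : i' ≠ l := fun h' => hi' (h' ▸ hl)
  obtain ⟨p, v, e1⟩ := exists_edge hS hD hT hρ hτρ hi hiτ
  obtain ⟨p1, v1, e2⟩ := exists_edge hS hD hT hρ hτρ hl hlτ
  obtain rfl := edge_eq hT hρ hτρ hi hiτ hl hlτ hil e1 e2
  obtain ⟨p', v', e3⟩ := exists_edge hS hD hT hρ' hτρ' hi'ρ' hi'τ
  obtain ⟨p1', v1', e4⟩ := exists_edge hS hD hT hρ' hτρ' hlρ' hlτ
  obtain rfl := edge_eq hT hρ' hτρ' hi'ρ' hi'τ hlρ' hlτ hi'l e3 e4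
  rcases le_total p p' with hpp | hpp
  · exact square_le hS hD hB hT hK hρ hρ' hτρ hi hiτ hl hlτ hil hi' h hx hy e1 e2 e4 hpp m hm
  · have h2 : ρ = insert i (ρ' \ {i'}) := by
      rw [h]
      ext g
      simp only [Set.mem_insert_iff, Set.mem_sdiff, Set.mem_singleton_iff]
      constructor
      · intro hg
        by_cases hgi : g = i
        · exact Or.inl hgi
        · exact Or.inr ⟨Or.inr ⟨hg, hgi⟩, fun h' => hi' (h' ▸ hg)⟩
      · rintro (rfl | ⟨rfl | h', h''⟩)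
        · exact hi
        · exact absurd rfl h''
        · exact h'.1
    have h3 := change' hS hρ hρ' hi hi' h i'
    rw [xx_self hS hρ' hi'ρ'] at h3
    have h4 : xx u ρ' i' i < 0 := by
      by_contra h5
      push Not at h5
      nlinarith
    have h5 := change hS hρ hρ' hi hl hil hi' h i'
    rw [xx_ne hS hρ' hlρ' hi'ρ' hi'l] at h5
    have h6 : 0 ≤ xx u ρ' l i := by
      by_contra h7
      push Not at h7
      nlinarith
    refine square_le hS hD hB hT hK hρ' hρ hτρ' hi'ρ' hi'τ hlρ' hlτ hi'l hiρ' h2 h4 h6 e3 e4 e2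
      hpp m (fun g hg hgi hgl => ?_)
    rw [h] at hg
    rcases hg with hg | hg
    · exact absurd hg hgi
    · exact hm g hg.1 hg.2 hgl

theorem ray_expand (hS : IsFan u S) {ρ : Set ι} (hρ : IsMax S ρ) (j : ι) (k : Fin N) :
    (u j k : ℝ) = ∑ l ∈ fs ρ, xx u ρ l j * (u l k : ℝ) := by
  classical
  have h1 : ∀ j, pr u (Pi.single k (1 : ℝ)) j = u j k := fun j => by
    unfold pr
    rw [Finset.sum_eq_single k]
    · simp
    · intro l _ hl; simp [Pi.single_eq_of_ne hl]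
    · simp
  have h2 := pr_expand hS hρ (Pi.single k (1 : ℝ)) j
  rw [h1] at h2
  rw [h2]
  exact Finset.sum_congr rfl fun l _ => by rw [h1, mul_comm]

/-- A ray whose class is in a cone of the star. -/
theorem cone_mem (hS : IsFan u S) {ρ : Set ι} (hρ : IsMax S ρ) {σ : Set ι} (hσ : σ ⊆ ρ) {j : ι}
    (hj : insert j σ ∈ S) (hx : ∀ h ∈ ρ, h ∉ σ → 0 ≤ xx u ρ h j) : j ∈ ρ := by
  classical
  by_contra hjρ
  have hjσ : j ∉ σ := fun h => hjρ (hσ h)
  set C : ℝ := ∑ l ∈ fs ρ, |xx u ρ l j| with hC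
  have hCl : ∀ h ∈ ρ, -xx u ρ h j ≤ C := fun h hh =>
    (neg_le_abs _).trans (Finset.single_le_sum (f := fun l => |xx u ρ l j|)
      (fun l _ => abs_nonneg _) (mem_fs.2 hh))
  have hC0 : 0 ≤ C := Finset.sum_nonneg fun l _ => abs_nonneg _
  let a1 : ι → ℝ := fun h => if h = j then 1 else if h ∈ σ then C else 0
  let a2 : ι → ℝ := fun h => if h ∈ ρ then xx u ρ h j + if h ∈ σ then C else 0 else 0
  have h1 := (hS.rep fun k => ∑ h, a1 h * (u h k : ℝ)).unique (y₁ := a1) (y₂ := a2)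
    ⟨fun h => ?_, ?_, fun k => rfl⟩ ⟨fun h => ?_, ?_, fun k => ?_⟩
  · have h2 := congrFun h1 j
    simp only [a1, a2, if_true, if_neg hjρ] at h2
    norm_num at h2
  · simp only [a1]
    split_ifs
    · norm_num
    · exact hC0
    · exact le_rfl
  · refine hS.face _ hj _ fun h hh => ?_
    simp only [a1, Set.mem_ofPred_eq] at hh
    by_cases h3 : h = j
    · rw [h3]; exact Set.mem_insert _ _
    · rw [if_neg h3] at hh
      by_cases h4 : h ∈ σ
      · exact Set.mem_insert_of_mem _ h4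
      · rw [if_neg h4] at hh; exact absurd rfl hh
  · simp only [a2]
    split_ifs with h3 h4
    · linarith [hCl h h3]
    · linarith [hx h h3 h4]
    · exact le_rfl
  · refine hS.face _ hρ.1 _ fun h hh => ?_
    by_contra h3
    simp only [a2, Set.mem_ofPred_eq, if_neg h3] at hh
    exact hh rfl
  · have e1 : ∑ h, a2 h * (u h k : ℝ) = ∑ h ∈ fs ρ, a2 h * (u h k : ℝ) := by
      symm
      apply Finset.sum_subset (Finset.subset_univ _)
      intro h _ hh
      have : h ∉ ρ := fun h' => hh (mem_fs.2 h')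
      simp only [a2, if_neg this, zero_mul]
    have e2 : ∑ h ∈ fs ρ, a2 h * (u h k : ℝ) =
        u j k + ∑ h ∈ fs ρ, (if h ∈ σ then C else 0) * (u h k : ℝ) := by
      rw [ray_expand hS hρ j k, ← Finset.sum_add_distrib]
      refine Finset.sum_congr rfl fun h hh => ?_
      simp only [a2, if_pos (mem_fs.1 hh)]
      ring
    have e3 : ∑ h ∈ fs ρ, (if h ∈ σ then C else 0) * (u h k : ℝ) =
        ∑ h, (if h ∈ σ then C else 0) * (u h k : ℝ) := by
      apply Finset.sum_subset (Finset.subset_univ _)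
      intro h _ hh
      have : h ∉ σ := fun h' => hh (mem_fs.2 (hσ h'))
      rw [if_neg this, zero_mul]
    have e4 : ∑ h, a1 h * (u h k : ℝ) = u j k + ∑ h, (if h ∈ σ then C else 0) * (u h k : ℝ) := by
      have : ∀ h, a1 h * (u h k : ℝ) = (if h = j then (u h k : ℝ) else 0) +
          (if h ∈ σ then C else 0) * (u h k : ℝ) := fun h => by
        simp only [a1]
        by_cases h3 : h = j
        · subst h3
          simp [hjσ]
        · simp [h3]
      simp only [this, Finset.sum_add_distrib]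
      simp
    show ∑ h, a2 h * (u h k : ℝ) = ∑ h, a1 h * (u h k : ℝ)
    rw [e1, e2, e3, e4]

theorem bary {b bk x xk y yk X Y a c : ℝ} (hX : 0 < X) (hY : 0 < Y) (hb : 0 ≤ b) (hbk : 0 < bk)
    (h1 : 0 ≤ b + X * x) (h2 : 0 ≤ b + Y * y) (h3 : bk + X * xk = 0) (h4 : bk + Y * yk = 0)
    (ha : 0 ≤ a) (hc : 0 ≤ c) (h : 0 ≤ bk + a * xk + c * yk) : 0 ≤ b + a * x + c * y := by
  have e1 : xk = -bk / X := by field_simp; linarith
  have e2 : yk = -bk / Y := by field_simp; linarith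
  rw [e1, e2] at h
  have e3 : 0 ≤ 1 - a / X - c / Y := by
    have e4 : bk + a * (-bk / X) + c * (-bk / Y) = bk * (1 - a / X - c / Y) := by ring
    rw [e4] at h
    exact nonneg_of_mul_nonneg_right h hbk
  have e5 : b + a * x + c * y = (1 - a / X - c / Y) * b + a / X * (b + X * x) +
      c / Y * (b + Y * y) := by field_simp; ring
  rw [e5]
  positivity

theorem tri (hS : IsFan u S) {D B : ι → ℤ} (hD : IsAmpleFree u S D) (hB : Big u S D B)
    {τ : Set ι} (hT : Sit u S D τ) {K : AddSubgroup (Fin N → ℤ)} (hK : Contains u B τ K)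
    {ρ ρ1 ρ2 : Set ι} (hρ : IsMax S ρ) (hρ1 : IsMax S ρ1) (hρ2 : IsMax S ρ2) (hτρ : τ ⊆ ρ)
    {i l k : ι} (hi : i ∈ ρ) (hiτ : i ∉ τ) (hl : l ∈ ρ) (hlτ : l ∉ τ) (hil : i ≠ l) (hk : k ∉ ρ)
    (h1 : ρ1 = insert k (ρ \ {i})) (h2 : ρ2 = insert k (ρ \ {l})) (m : Fin N → ℤ)
    (hm : ∀ g ∈ ρ, g ≠ i → g ≠ l → pr u m g = 0) : m ∈ K := by
  classical
  have hkτ : k ∉ τ := fun h' => hk (hτρ h')
  have hik : i ≠ k := fun h' => hk (h' ▸ hi)
  have hlk : l ≠ k := fun h' => hk (h' ▸ hl)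
  have hτρ1 : τ ⊆ ρ1 := fun g hg => by
    rw [h1]; exact Set.mem_insert_of_mem _ ⟨hτρ hg, fun h' => hiτ (h' ▸ hg)⟩
  have hτρ2 : τ ⊆ ρ2 := fun g hg => by
    rw [h2]; exact Set.mem_insert_of_mem _ ⟨hτρ hg, fun h' => hlτ (h' ▸ hg)⟩
  have hkρ1 : k ∈ ρ1 := by rw [h1]; exact Set.mem_insert _ _
  have hkρ2 : k ∈ ρ2 := by rw [h2]; exact Set.mem_insert _ _
  have hlρ1 : l ∈ ρ1 := by rw [h1]; exact Set.mem_insert_of_mem _ ⟨hl, hil.symm⟩
  have hiρ2 : i ∈ ρ2 := by rw [h2]; exact Set.mem_insert_of_mem _ ⟨hi, hil⟩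
  have hiρ1 : i ∉ ρ1 := by
    rw [h1]
    rintro (h' | h')
    · exact hik h'
    · exact h'.2 rfl
  have hlρ2 : l ∉ ρ2 := by
    rw [h2]
    rintro (h' | h')
    · exact hlk h'
    · exact h'.2 rfl
  obtain ⟨α, hα, hαD⟩ := hT.vert ρ hρ hτρ
  obtain ⟨α1, hα1, hα1D⟩ := hT.vert ρ1 hρ1 hτρ1
  obtain ⟨α2, hα2, hα2D⟩ := hT.vert ρ2 hρ2 hτρ2
  have pk : 1 ≤ α k := Nat.one_le_iff_ne_zero.2 fun h => hk ((hα k).1 h)
  have pi1 : 1 ≤ α1 i := Nat.one_le_iff_ne_zero.2 fun h => hiρ1 ((hα1 i).1 h)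
  have pl2 : 1 ≤ α2 l := Nat.one_le_iff_ne_zero.2 fun h => hlρ2 ((hα2 l).1 h)
  have z1 : ∀ g ∈ ρ, g ≠ i → α1 g = 0 := fun g hg hgi =>
    (hα1 g).2 (by rw [h1]; exact Set.mem_insert_of_mem _ ⟨hg, hgi⟩)
  have z2 : ∀ g ∈ ρ, g ≠ l → α2 g = 0 := fun g hg hgi =>
    (hα2 g).2 (by rw [h2]; exact Set.mem_insert_of_mem _ ⟨hg, hgi⟩)
  have z0 : ∀ g ∈ ρ, α g = 0 := fun g hg => (hα g).2 hg
  have hDk : rp u ρ D k = α k := by
    rw [← lin_rp hS hρ hαD k]
    exact rp_nat z0 k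
  -- the coefficients of `k`
  have xi : (α k : ℝ) + α1 i * xx u ρ i k = 0 := by
    have h := val_one hS hρ hα1D hi (fun g hg hgi => by rw [z1 g hg hgi]; rfl) k
    rw [(hα1 k).2 hkρ1, hDk] at h
    push_cast at h
    linarith
  have xl : (α k : ℝ) + α2 l * xx u ρ l k = 0 := by
    have h := val_one hS hρ hα2D hl (fun g hg hgi => by rw [z2 g hg hgi]; rfl) k
    rw [(hα2 k).2 hkρ2, hDk] at h
    push_cast at h
    linarith
  let M0 : AddSubgroup (Fin N → ℤ) :=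
    { carrier := {m | ∀ g ∈ ρ, g ≠ i → g ≠ l → pr u m g = 0}
      zero_mem' := fun _ _ _ _ => by simp [pr]
      add_mem' := fun {a b} ha hb g hg hgi hgl => by
        rw [pr_add, ha g hg hgi hgl, hb g hg hgi hgl, add_zero]
      neg_mem' := fun {a} ha g hg hgi hgl => by
        have h2 : pr u (-a) g = -pr u a g := by simp [pr]
        rw [h2, ha g hg hgi hgl, neg_zero] }
  let π : M0 →+ (Fin 3 → ℤ) :=
    { toFun := fun x => ![pr u x.1 i, pr u x.1 l, pr u x.1 k]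
      map_zero' := by funext j; fin_cases j <;> simp [pr]
      map_add' := fun x y => by
        funext j
        fin_cases j
        · exact pr_add _ _ _
        · exact pr_add _ _ _
        · exact pr_add _ _ _ }
  let e : Fin 3 → ℤ := ![α1 i, α2 l, α k]
  have he : ∀ j, 1 ≤ e j := by
    intro j
    fin_cases j
    · show (1 : ℤ) ≤ α1 i; exact_mod_cast pi1
    · show (1 : ℤ) ≤ α2 l; exact_mod_cast pl2
    · show (1 : ℤ) ≤ α k; exact_mod_cast pk
  have E1 : ∀ j, ∃ x, π x = Pi.single j (e j) - Pi.single 0 (e 0) := by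
    obtain ⟨n0, hn0⟩ := hαD
    obtain ⟨n1, hn1⟩ := hα1D
    obtain ⟨n2, hn2⟩ := hα2D
    intro j
    fin_cases j
    · refine ⟨0, ?_⟩
      rw [map_zero]
      exact (sub_self _).symm
    · refine ⟨⟨n2 - n1, fun g hg hgi hgl => ?_⟩, ?_⟩
      · have h3 := hn1 g
        have h4 := hn2 g
        simp only [z1 g hg hgi, z2 g hg hgl, Nat.cast_zero] at h3 h4
        rw [pr_sub]; linarith
      · have f1 : pr u (n2 - n1) i = -α1 i := by
          have h3 := hn1 i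
          have h4 := hn2 i
          simp only [z2 i hi hil, Nat.cast_zero] at h3 h4
          rw [pr_sub]; linarith
        have f2 : pr u (n2 - n1) l = α2 l := by
          have h3 := hn1 l
          have h4 := hn2 l
          simp only [z1 l hl hil.symm, Nat.cast_zero] at h3 h4
          rw [pr_sub]; linarith
        have f3 : pr u (n2 - n1) k = 0 := by
          have h3 := hn1 k
          have h4 := hn2 k
          simp only [(hα1 k).2 hkρ1, (hα2 k).2 hkρ2, Nat.cast_zero] at h3 h4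
          rw [pr_sub]; linarith
        funext j
        fin_cases j
        · show pr u (n2 - n1) i = _
          rw [f1]; simp [e]
        · show pr u (n2 - n1) l = _
          rw [f2]; simp [e]
        · show pr u (n2 - n1) k = _
          rw [f3]; simp [e]
    · refine ⟨⟨n0 - n1, fun g hg hgi hgl => ?_⟩, ?_⟩
      · have h3 := hn1 g
        have h4 := hn0 g
        simp only [z1 g hg hgi, z0 g hg, Nat.cast_zero] at h3 h4
        rw [pr_sub]; linarith
      · have f1 : pr u (n0 - n1) i = -α1 i := by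
          have h3 := hn1 i
          have h4 := hn0 i
          simp only [z0 i hi, Nat.cast_zero] at h3 h4
          rw [pr_sub]; linarith
        have f2 : pr u (n0 - n1) l = 0 := by
          have h3 := hn1 l
          have h4 := hn0 l
          simp only [z1 l hl hil.symm, z0 l hl, Nat.cast_zero] at h3 h4
          rw [pr_sub]; linarith
        have f3 : pr u (n0 - n1) k = α k := by
          have h3 := hn1 k
          have h4 := hn0 k
          simp only [(hα1 k).2 hkρ1, Nat.cast_zero] at h3 h4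
          rw [pr_sub]; linarith
        funext j
        fin_cases j
        · show pr u (n0 - n1) i = _
          rw [f1]; simp [e]
        · show pr u (n0 - n1) l = _
          rw [f2]; simp [e]
        · show pr u (n0 - n1) k = _
          rw [f3]; simp [e]
  have E2 : ∀ j, ∃ x, π x j = 1 := by
    intro j
    fin_cases j
    · obtain ⟨n, hn⟩ := hT.wall ρ hρ hτρ l hl hlτ
      exact ⟨⟨n i, fun g hg hgi hgl => (hn i ⟨hi, hil⟩).2 g ⟨hg, hgl⟩ hgi⟩, (hn i ⟨hi, hil⟩).1⟩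
    · obtain ⟨n, hn⟩ := hT.wall ρ hρ hτρ i hi hiτ
      exact ⟨⟨n l, fun g hg hgi hgl => (hn l ⟨hl, hil.symm⟩).2 g ⟨hg, hgi⟩ hgl⟩,
        (hn l ⟨hl, hil.symm⟩).1⟩
    · obtain ⟨n, hn⟩ := hT.wall ρ1 hρ1 hτρ1 l hlρ1 hlτ
      refine ⟨⟨n k, fun g hg hgi hgl => (hn k ⟨hkρ1, hlk.symm⟩).2 g ⟨?_, hgl⟩
        (fun h' => hk (h' ▸ hg))⟩, (hn k ⟨hkρ1, hlk.symm⟩).1⟩
      rw [h1]; exact Set.mem_insert_of_mem _ ⟨hg, hgi⟩
  have hr1 : (0 : ℝ) < α1 i := by exact_mod_cast pi1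
  have hr2 : (0 : ℝ) < α2 l := by exact_mod_cast pl2
  have hr3 : (0 : ℝ) < α k := by exact_mod_cast pk
  have E3 : ∀ x, dg e (π x) = 0 := by
    intro x
    have f1 := pr_two hS hρ (fun k => (x.1 k : ℝ)) hi hl hil (fun g hg hgi hgl => by
      rw [pr_cast, x.2 g hg hgi hgl, Int.cast_zero]) k
    rw [pr_cast, pr_cast, pr_cast] at f1
    have f2 : xx u ρ i k = -α k / α1 i := by field_simp; linarith
    have f3 : xx u ρ l k = -α k / α2 l := by field_simp; linarith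
    rw [f2, f3] at f1
    have f4 : ((dg e (π x) : ℚ) : ℝ) = pr u x.1 i / α1 i + pr u x.1 l / α2 l + pr u x.1 k / α k := by
      simp only [dg, Fin.sum_univ_three]
      simp [π, e]
    have f5 : ((dg e (π x) : ℚ) : ℝ) = 0 := by
      rw [f4, f1]; field_simp; ring
    exact_mod_cast f5
  -- the base point
  obtain ⟨p, v, e1⟩ := exists_edge hS hD hT hρ hτρ hi hiτ
  obtain ⟨μ, ⟨M1, hM1⟩, hμ1, hμ2, -⟩ := exists_point B (hT.wall ρ hρ hτρ i hi hiτ) e1 fun _ => 0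
  have hμ0 : ∀ g ∈ ρ, g ≠ i → μ g = 0 := hμ1
  have hBk : 0 < rp u ρ B k := by
    have f1 := (hB ρ hρ k hk).1
    rw [hDk] at f1
    linarith
  let β : Fin 3 → ℤ := ![μ i, μ l, μ k]
  have hβ : 1 ≤ dg e β := by
    have f1 := val_one hS hρ ⟨M1, hM1⟩ hi hμ0 k
    have f2 : xx u ρ i k = -α k / α1 i := by field_simp; linarith
    rw [f2] at f1
    have f3 := (hB ρ hρ k hk).1
    rw [hDk] at f3
    have f4 : ((dg e β : ℚ) : ℝ) = μ i / α1 i + μ l / α2 l + μ k / α k := by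
      simp only [dg, Fin.sum_univ_three]
      simp [β, e]
    have f5 : (1 : ℝ) ≤ ((dg e β : ℚ) : ℝ) := by
      rw [f4, f1, hμ0 l hl hil.symm]
      have f6 : (μ i : ℝ) / α1 i + ((0 : ℤ) : ℝ) / α2 l +
          (rp u ρ B k + μ i * (-α k / α1 i)) / α k = rp u ρ B k / α k := by
        field_simp
        push_cast
        ring
      rw [f6, one_le_div hr3]
      exact f3
    exact_mod_cast f5
  have hnn : ∀ x : M0, (∀ j, 0 ≤ β j + π x j) → ∀ j, 0 ≤ B j + pr u (M1 + x.1) j := by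
    intro x hx j
    have hxi : 0 ≤ μ i + pr u x.1 i := hx 0
    have hxl : 0 ≤ μ l + pr u x.1 l := hx 1
    have hxk : 0 ≤ μ k + pr u x.1 k := hx 2
    set ν : ι → ℤ := fun j => B j + pr u (M1 + x.1) j with hν
    have hνμ : ∀ j, ν j = μ j + pr u x.1 j := fun j => by
      rw [hν, hM1 j]
      simp only [pr_add]
      ring
    have hνB : LinEquiv u ν B := ⟨M1 + x.1, fun j => rfl⟩
    have hν0 : ∀ g ∈ ρ, g ≠ i → g ≠ l → ν g = 0 := fun g hg hgi hgl => by
      rw [hνμ, hμ0 g hg hgi, x.2 g hg hgi hgl, add_zero]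
    show 0 ≤ ν j
    by_cases hj : j ∈ ρ
    · by_cases hji : j = i
      · rw [hji, hνμ]; exact hxi
      · by_cases hjl : j = l
        · rw [hjl, hνμ]; exact hxl
        · rw [hν0 j hj hji hjl]
    by_cases hjk : j = k
    · rw [hjk, hνμ]; exact hxk
    have hj1 : j ∉ ρ1 := by
      rw [h1]
      rintro (h' | h')
      · exact hjk h'
      · exact hj h'.1
    have hj2 : j ∉ ρ2 := by
      rw [h2]
      rintro (h' | h')
      · exact hjk h'
      · exact hj h'.1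
    have g1 := rp_change hS hρ hρ1 hi h1 B j
    have g1' := rp_change hS hρ hρ1 hi h1 B k
    rw [rp_of_mem hS hρ1 _ hkρ1] at g1'
    have g2 := rp_change hS hρ hρ2 hl h2 B j
    have g2' := rp_change hS hρ hρ2 hl h2 B k
    rw [rp_of_mem hS hρ2 _ hkρ2] at g2'
    have g3 : 0 ≤ rp u ρ1 B j := by
      linarith [(hB ρ1 hρ1 j hj1).1, (bound hS hD hρ1 hj1).1]
    have g4 : 0 ≤ rp u ρ2 B j := by
      linarith [(hB ρ2 hρ2 j hj2).1, (bound hS hD hρ2 hj2).1]
    have g5 : 0 < rp u ρ1 B i := by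
      linarith [(hB ρ1 hρ1 i hiρ1).1, (bound hS hD hρ1 hiρ1).1]
    have g6 : 0 < rp u ρ2 B l := by
      linarith [(hB ρ2 hρ2 l hlρ2).1, (bound hS hD hρ2 hlρ2).1]
    have g7 : 0 ≤ rp u ρ B j := by
      linarith [(hB ρ hρ j hj).1, (bound hS hD hρ hj).1]
    have g8 := val_two hS hρ hνB hi hl hil hν0 k
    have g9 := val_two hS hρ hνB hi hl hil hν0 j
    have g10 : (0 : ℝ) ≤ ν k := by rw [hνμ]; exact_mod_cast hxk
    have g11 : (0 : ℝ) ≤ ν i := by rw [hνμ]; exact_mod_cast hxi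
    have g12 : (0 : ℝ) ≤ ν l := by rw [hνμ]; exact_mod_cast hxl
    have g13 : (0 : ℝ) ≤ ν j := by
      rw [g9]
      exact bary g5 g6 g7 hBk (by linarith) (by linarith) g1'.symm g2'.symm g11 g12
        (by rw [← g8]; exact g10)
    exact_mod_cast g13
  have hz : ∀ x : M0, ∀ j ∈ τ, B j + pr u (M1 + x.1) j = 0 := by
    intro x j hj
    have hji : j ≠ i := fun h => hiτ (h ▸ hj)
    have hjl : j ≠ l := fun h => hlτ (h ▸ hj)
    have f1 := hM1 j
    rw [hμ0 j (hτρ hj) hji] at f1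
    rw [pr_add, x.2 j (hτρ hj) hji hjl]
    linarith
  have key := triangle π e he E1 E2 E3 β hβ (K.comap M0.subtype) (fun x y hx hy => by
    show (x.1 - y.1 : Fin N → ℤ) ∈ K
    have f1 := hK (M1 + x.1) (M1 + y.1) (hz x) (hz y) (hnn x hx) (hnn y hy)
    have f2 : M1 + x.1 - (M1 + y.1) = x.1 - y.1 := by abel
    rwa [f2] at f1) ⟨m, hm⟩
  exact key

/-- **The two-dimensional faces.** -/
theorem surface (hS : IsFan u S) {D B : ι → ℤ} (hD : IsAmpleFree u S D) (hB : Big u S D B)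
    {τ : Set ι} (hT : Sit u S D τ) {K : AddSubgroup (Fin N → ℤ)} (hK : Contains u B τ K)
    {ρ : Set ι} (hρ : IsMax S ρ) (hτρ : τ ⊆ ρ) {i l : ι} (hi : i ∈ ρ)
    (hiτ : i ∉ τ) (hl : l ∈ ρ) (hlτ : l ∉ τ) (hil : i ≠ l) (m : Fin N → ℤ)
    (hm : ∀ g ∈ ρ, g ≠ i → g ≠ l → pr u m g = 0) : m ∈ K := by
  classical
  obtain ⟨i', hi', hρ1, hx1⟩ := neighbour hS hD hρ hi
  by_cases h1 : 0 ≤ xx u ρ l i'
  · exact square hS hD hB hT hK hρ hρ1 hτρ hi hiτ hl hlτ hil hi' rfl hx1 h1 m hm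
  obtain ⟨l', hl', hρ2, hx2⟩ := neighbour hS hD hρ hl
  by_cases h2 : 0 ≤ xx u ρ i l'
  · exact square hS hD hB hT hK hρ hρ2 hτρ hl hlτ hi hiτ hil.symm hl' rfl hx2 h2 m
      fun g hg h3 h4 => hm g hg h4 h3
  push Not at h1 h2
  set ρ1 := insert i' (ρ \ {i}) with hρ1d
  set ρ2 := insert l' (ρ \ {l}) with hρ2d
  have hi'l : i' ≠ l := fun h' => hi' (h' ▸ hl)
  have hi'ρ1 : i' ∈ ρ1 := Set.mem_insert _ _
  have hlρ1 : l ∈ ρ1 := Set.mem_insert_of_mem _ ⟨hl, hil.symm⟩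
  have hi'τ : i' ∉ τ := fun h' => hi' (hτρ h')
  have hτρ1 : τ ⊆ ρ1 := fun g hg =>
    Set.mem_insert_of_mem _ ⟨hτρ hg, fun h' => hiτ (h' ▸ hg)⟩
  obtain ⟨k, hk, hρ3, hx3⟩ := neighbour hS hD hρ1 hlρ1
  set ρ3 := insert k (ρ1 \ {l}) with hρ3d
  by_cases h3 : 0 ≤ xx u ρ1 i' k
  · refine square hS hD hB hT hK hρ1 hρ3 hτρ1 hlρ1 hlτ hi'ρ1 hi'τ hi'l.symm hk rfl hx3 h3 m
      fun g hg hgl hgi => ?_
    rcases hg with hg | hg
    · exact absurd hg hgi
    · exact hm g hg.1 hg.2 hgl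
  push Not at h3
  -- `k = i`
  have e1 := change' hS hρ hρ1 hi hi' rfl i'
  rw [xx_self hS hρ1 hi'ρ1] at e1
  have e2 : xx u ρ1 i' i < 0 := by
    by_contra h5
    push Not at h5
    nlinarith
  have e3 := change' hS hρ hρ1 hi hi' rfl k
  have e4 : 0 < xx u ρ i k := by
    by_contra h5
    push Not at h5
    nlinarith
  have hσ3 : insert k (ρ \ {i, l}) ⊆ ρ3 := by
    rintro g (rfl | ⟨hg, hg'⟩)
    · exact Set.mem_insert _ _
    · simp only [Set.mem_insert_iff, Set.mem_singleton_iff, not_or] at hg'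
      exact Set.mem_insert_of_mem _ ⟨Set.mem_insert_of_mem _ ⟨hg, hg'.1⟩, hg'.2⟩
  have hσS : insert k (ρ \ {i, l}) ∈ S := hS.face _ hρ3.1 _ hσ3
  have hki : k = i := by
    by_cases h5 : 0 ≤ xx u ρ l k
    · have h6 : k ∈ ρ := cone_mem hS hρ Set.sdiff_subset hσS fun g hg hgσ => by
        have h7 : g = i ∨ g = l := by
          by_contra h8
          push Not at h8
          exact hgσ ⟨hg, by simp [h8.1, h8.2]⟩
        rcases h7 with rfl | rfl
        · exact e4.le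
        · exact h5
      by_contra h7
      exact hk (Set.mem_insert_of_mem _ ⟨h6, h7⟩)
    · push Not at h5
      exfalso
      have hl'ρ2 : l' ∈ ρ2 := Set.mem_insert _ _
      have hiρ2 : i ∈ ρ2 := Set.mem_insert_of_mem _ ⟨hi, hil⟩
      have hl'i : l' ≠ i := fun h' => hl' (h' ▸ hi)
      have f1 := change' hS hρ hρ2 hl hl' rfl l'
      rw [xx_self hS hρ2 hl'ρ2] at f1
      have f2 : xx u ρ2 l' l < 0 := by
        by_contra h6
        push Not at h6
        nlinarith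
      have f3 := change' hS hρ hρ2 hl hl' rfl k
      have f4 : 0 ≤ xx u ρ2 l' k := by rw [f3]; nlinarith
      have f5 := change hS hρ hρ2 hl hi hil.symm hl' rfl l'
      rw [xx_ne hS hρ2 hiρ2 hl'ρ2 hl'i] at f5
      have f6 : xx u ρ2 i l < 0 := by
        by_contra h6
        push Not at h6
        nlinarith
      have f7 := change hS hρ hρ2 hl hi hil.symm hl' rfl k
      have f8 : 0 ≤ xx u ρ2 i k := by rw [f7]; nlinarith
      have h6 : k ∈ ρ2 := cone_mem hS hρ2 (σ := ρ \ {i, l}) (fun g hg => by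
          have hg' := hg.2
          simp only [Set.mem_insert_iff, Set.mem_singleton_iff, not_or] at hg'
          exact Set.mem_insert_of_mem _ ⟨hg.1, hg'.2⟩) hσS fun g hg hgσ => by
        have h7 : g = i ∨ g = l' := by
          by_contra h8
          push Not at h8
          rcases hg with hg | hg
          · exact h8.2 hg
          · exact hgσ ⟨hg.1, by
              simp only [Set.mem_insert_iff, Set.mem_singleton_iff, not_or]
              exact ⟨h8.1, hg.2⟩⟩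
        rcases h7 with rfl | rfl
        · exact f8
        · exact f4
      rcases h6 with h6 | h6
      · rw [h6] at e4; linarith
      · by_cases h7 : k = i
        · rw [h7, xx_ne hS hρ hl hi hil] at h5
          exact lt_irrefl _ h5
        · exact hk (Set.mem_insert_of_mem _ ⟨h6.1, h7⟩)
  have hρ3' : ρ3 = insert i' (ρ \ {l}) := by
    rw [hρ3d, hki, hρ1d]
    ext g
    simp only [Set.mem_insert_iff, Set.mem_sdiff, Set.mem_singleton_iff]
    constructor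
    · rintro (rfl | ⟨rfl | ⟨h4, h5⟩, h6⟩)
      · exact Or.inr ⟨hi, hil⟩
      · exact Or.inl rfl
      · exact Or.inr ⟨h4, h6⟩
    · rintro (rfl | ⟨h4, h5⟩)
      · exact Or.inr ⟨Or.inl rfl, hi'l⟩
      · by_cases h6 : g = i
        · exact Or.inl h6
        · exact Or.inr ⟨Or.inr ⟨h4, h6⟩, h5⟩
  exact tri hS hD hB hT hK hρ hρ1 hρ3 hτρ hi hiτ hl hlτ hil hi' rfl hρ3' m hm

end H90.TV
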