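import Pool.Agent.H90.TF.Fan
import Pool.Agent.H90.TV.Comb

/-!
# Coordinates at a maximal cone
-/

set_option autoImplicit false

namespace H90.TV

open H90.TF MvPolynomial

variable {ι : Type} [Fintype ι] {N : ℕ} {u : ι → Fin N → ℤ} {S : Set (Set ι)}

/-- The dual basis of a maximal cone. -/
noncomputable def Ed (u : ι → Fin N → ℤ) (ρ : Set ι) : ι → Fin N → ℝ := by
  classical exact
  if h : ∃ E : ι → Fin N → ℝ, ∀ l ∈ ρ, pr u (E l) l = 1 ∧ ∀ i ∈ ρ, i ≠ l → pr u (E l) i = 0 then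
    h.choose else 0

/-- The coefficient of `u l` in `u j` in the basis of a maximal cone. -/
noncomputable def xx (u : ι → Fin N → ℤ) (ρ : Set ι) (l j : ι) : ℝ := pr u (Ed u ρ l) j

/-- The elements of a set, as a finite set. -/
noncomputable def fs (ρ : Set ι) : Finset ι := by classical exact Finset.univ.filter (· ∈ ρ)

theorem mem_fs {ρ : Set ι} {i : ι} : i ∈ fs ρ ↔ i ∈ ρ := by
  classical
  simp [fs]

theorem maxData (hS : IsFan u S) {ρ : Set ι} (hρ : IsMax S ρ) : ρ.ncard = N ∧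
    (∃ (D : ℕ) (m : ι → Fin N → ℤ), 1 ≤ D ∧
      ∀ i ∈ ρ, pr u (m i) i = D ∧ ∀ i' ∈ ρ, i' ≠ i → pr u (m i) i' = 0) ∧
      ∀ x : Fin N → ℂ, (∀ i ∈ ρ, pr u x i = 0) → x = 0 := by
  obtain ⟨σ, h1, h2, h3, h4, h5⟩ := hS.basis hρ.1
  have h6 := hρ.2 σ h1 h2
  subst h6
  exact ⟨h3, h4, h5⟩

omit [Fintype ι] in
theorem pr_cast (m : Fin N → ℤ) (i : ι) :
    pr u (fun k => (m k : ℝ)) i = ((pr u m i : ℤ) : ℝ) := by simp [pr]

theorem form_zero (hS : IsFan u S) {ρ : Set ι} (hρ : IsMax S ρ) {x : Fin N → ℝ}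
    (h : ∀ i ∈ ρ, pr u x i = 0) : x = 0 := by
  have h1 := (maxData hS hρ).2.2 (fun k => (x k : ℂ)) (fun i hi => by
    have h2 := h i hi
    have h3 : pr u (fun k => (x k : ℂ)) i = ((pr u x i : ℝ) : ℂ) := by simp [pr]
    rw [h3, h2, Complex.ofReal_zero])
  funext k
  have h2 := congrFun h1 k
  exact Complex.ofReal_eq_zero.1 h2

theorem Ed_spec (hS : IsFan u S) {ρ : Set ι} (hρ : IsMax S ρ) :
    ∀ l ∈ ρ, pr u (Ed u ρ l) l = 1 ∧ ∀ i ∈ ρ, i ≠ l → pr u (Ed u ρ l) i = 0 := by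
  obtain ⟨-, ⟨D, m, hD, hm⟩, -⟩ := maxData hS hρ
  have h : ∃ E : ι → Fin N → ℝ, ∀ l ∈ ρ, pr u (E l) l = 1 ∧ ∀ i ∈ ρ, i ≠ l → pr u (E l) i = 0 := by
    have hD0 : (D : ℝ) ≠ 0 := by exact_mod_cast (show D ≠ 0 by omega)
    refine ⟨fun l => (D : ℝ)⁻¹ • fun k => (m l k : ℝ), fun l hl => ⟨?_, fun i hi hil => ?_⟩⟩
    · rw [pr_smul, pr_cast, (hm l hl).1]
      push_cast
      exact inv_mul_cancel₀ hD0
    · rw [pr_smul, pr_cast, (hm l hl).2 i hi hil]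
      simp
  unfold Ed
  rw [dif_pos h]
  exact h.choose_spec

theorem xx_self (hS : IsFan u S) {ρ : Set ι} (hρ : IsMax S ρ) {l : ι} (hl : l ∈ ρ) :
    xx u ρ l l = 1 := (Ed_spec hS hρ l hl).1

theorem xx_ne (hS : IsFan u S) {ρ : Set ι} (hρ : IsMax S ρ) {l i : ι} (hl : l ∈ ρ) (hi : i ∈ ρ)
    (h : i ≠ l) : xx u ρ l i = 0 := (Ed_spec hS hρ l hl).2 i hi h

/-- expansion of a form -/
theorem pr_expand (hS : IsFan u S) {ρ : Set ι} (hρ : IsMax S ρ) (x : Fin N → ℝ) (j : ι) :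
    pr u x j = ∑ l ∈ fs ρ, pr u x l * xx u ρ l j := by
  classical
  have h1 : x - ∑ l ∈ fs ρ, pr u x l • Ed u ρ l = 0 := by
    apply form_zero hS hρ
    intro i hi
    rw [pr_sub, pr_sum, Finset.sum_eq_single i]
    · rw [pr_smul, (Ed_spec hS hρ i hi).1, mul_one, sub_self]
    · intro l hl hli
      rw [pr_smul, (Ed_spec hS hρ l (mem_fs.1 hl)).2 i hi (Ne.symm hli), mul_zero]
    · intro h
      exact absurd (mem_fs.2 hi) h
  have h2 : pr u (x - ∑ l ∈ fs ρ, pr u x l • Ed u ρ l) j = pr u (0 : Fin N → ℝ) j := by rw [h1]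
  rw [pr_sub, pr_sum] at h2
  have h3 : pr u (0 : Fin N → ℝ) j = 0 := by simp [pr]
  rw [h3] at h2
  simp only [pr_smul] at h2
  unfold xx
  linarith

/-- The real representative of a class which is zero on the maximal cone `ρ`. -/
noncomputable def rp (u : ι → Fin N → ℤ) (ρ : Set ι) (a : ι → ℤ) (j : ι) : ℝ :=
  a j - ∑ l ∈ fs ρ, (a l : ℝ) * xx u ρ l j

theorem rp_of_mem (hS : IsFan u S) {ρ : Set ι} (hρ : IsMax S ρ) (a : ι → ℤ) {j : ι} (hj : j ∈ ρ) :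
    rp u ρ a j = 0 := by
  unfold rp
  rw [Finset.sum_eq_single j]
  · rw [xx_self hS hρ hj]; ring
  · intro l hl hlj
    rw [xx_ne hS hρ (mem_fs.1 hl) hj (Ne.symm hlj), mul_zero]
  · intro h
    exact absurd (mem_fs.2 hj) h

theorem num_rp (hS : IsFan u S) {ρ : Set ι} (hρ : IsMax S ρ) {a b : ι → ℤ} (h : NumEquiv u a b)
    (j : ι) : rp u ρ a j = rp u ρ b j := by
  obtain ⟨m, hm⟩ := h
  unfold rp
  simp only [hm, add_mul, Finset.sum_add_distrib]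
  rw [← pr_expand hS hρ]
  ring

omit [Fintype ι] in
theorem num_of_lin {a b : ι → ℤ} (h : LinEquiv u a b) : NumEquiv u a b := by
  obtain ⟨m, hm⟩ := h
  exact ⟨fun k => (m k : ℝ), fun i => by rw [pr_cast, hm i]; push_cast; ring⟩

theorem lin_rp (hS : IsFan u S) {ρ : Set ι} (hρ : IsMax S ρ) {a b : ι → ℤ} (h : LinEquiv u a b)
    (j : ι) : rp u ρ a j = rp u ρ b j := num_rp hS hρ (num_of_lin h) j

/-- the coefficients of a divisor in terms of those on `ρ` -/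
theorem val_eq (hS : IsFan u S) {ρ : Set ι} (hρ : IsMax S ρ) {μ B : ι → ℤ} (h : LinEquiv u μ B)
    (j : ι) : (μ j : ℝ) = rp u ρ B j + ∑ l ∈ fs ρ, (μ l : ℝ) * xx u ρ l j := by
  rw [← lin_rp hS hρ h j]
  unfold rp
  ring

theorem sum_one {ρ : Set ι} {g : ι → ℝ} {i : ι} (hi : i ∈ ρ) (h : ∀ h ∈ ρ, h ≠ i → g h = 0) :
    ∑ l ∈ fs ρ, g l = g i := by
  rw [Finset.sum_eq_single i]
  · intro l hl hli
    exact h l (mem_fs.1 hl) hli
  · intro h'
    exact absurd (mem_fs.2 hi) h'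

theorem sum_two {ρ : Set ι} {g : ι → ℝ} {i l : ι} (hi : i ∈ ρ) (hl : l ∈ ρ) (hil : i ≠ l)
    (h : ∀ h ∈ ρ, h ≠ i → h ≠ l → g h = 0) : ∑ l ∈ fs ρ, g l = g i + g l := by
  classical
  rw [← Finset.sum_subset (s₁ := {i, l}) (s₂ := fs ρ)]
  · rw [Finset.sum_pair hil]
  · intro x hx
    simp only [Finset.mem_insert, Finset.mem_singleton] at hx
    rcases hx with rfl | rfl
    · exact mem_fs.2 hi
    · exact mem_fs.2 hl
  · intro x hx hx'
    simp only [Finset.mem_insert, Finset.mem_singleton, not_or] at hx'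
    exact h x (mem_fs.1 hx) hx'.1 hx'.2

theorem val_two (hS : IsFan u S) {ρ : Set ι} (hρ : IsMax S ρ) {μ B : ι → ℤ} (h : LinEquiv u μ B)
    {i l : ι} (hi : i ∈ ρ) (hl : l ∈ ρ) (hil : i ≠ l) (h0 : ∀ h ∈ ρ, h ≠ i → h ≠ l → μ h = 0)
    (j : ι) : (μ j : ℝ) = rp u ρ B j + μ i * xx u ρ i j + μ l * xx u ρ l j := by
  rw [val_eq hS hρ h j, sum_two hi hl hil, add_assoc]
  intro g hg h1 h2
  rw [h0 g hg h1 h2, Int.cast_zero, zero_mul]

theorem val_one (hS : IsFan u S) {ρ : Set ι} (hρ : IsMax S ρ) {μ B : ι → ℤ} (h : LinEquiv u μ B)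
    {i : ι} (hi : i ∈ ρ) (h0 : ∀ h ∈ ρ, h ≠ i → μ h = 0)
    (j : ι) : (μ j : ℝ) = rp u ρ B j + μ i * xx u ρ i j := by
  rw [val_eq hS hρ h j, sum_one hi]
  intro g hg h1
  rw [h0 g hg h1, Int.cast_zero, zero_mul]

theorem pr_one (hS : IsFan u S) {ρ : Set ι} (hρ : IsMax S ρ) (x : Fin N → ℝ)
    {i : ι} (hi : i ∈ ρ) (h0 : ∀ h ∈ ρ, h ≠ i → pr u x h = 0) (j : ι) :
    pr u x j = pr u x i * xx u ρ i j := by
  rw [pr_expand hS hρ x j, sum_one hi]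
  intro g hg h1
  rw [h0 g hg h1, zero_mul]

theorem pr_two (hS : IsFan u S) {ρ : Set ι} (hρ : IsMax S ρ) (x : Fin N → ℝ)
    {i l : ι} (hi : i ∈ ρ) (hl : l ∈ ρ) (hil : i ≠ l)
    (h0 : ∀ h ∈ ρ, h ≠ i → h ≠ l → pr u x h = 0) (j : ι) :
    pr u x j = pr u x i * xx u ρ i j + pr u x l * xx u ρ l j := by
  rw [pr_expand hS hρ x j, sum_two hi hl hil]
  intro g hg h1 h2
  rw [h0 g hg h1 h2, zero_mul]

/-- an integral form which is zero on `ρ` is zero -/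
theorem form_zero_int (hS : IsFan u S) {ρ : Set ι} (hρ : IsMax S ρ) {m : Fin N → ℤ}
    (h : ∀ i ∈ ρ, pr u m i = 0) : m = 0 := by
  have h1 := form_zero hS hρ (x := fun k => (m k : ℝ)) fun i hi => by
    rw [pr_cast, h i hi, Int.cast_zero]
  funext k
  have h2 : (m k : ℝ) = 0 := congrFun h1 k
  exact_mod_cast h2

omit [Fintype ι] in
theorem rp_nat [Fintype ι] {ρ : Set ι} {β : ι → ℕ} (h : ∀ l ∈ ρ, β l = 0) (j : ι) :
    rp u ρ (fun i => (β i : ℤ)) j = β j := by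
  unfold rp
  rw [Finset.sum_eq_zero, sub_zero, Int.cast_natCast]
  intro l hl
  simp [h l (mem_fs.1 hl)]

/-- The representative of an ample and free class. -/
theorem ample_rp (hS : IsFan u S) {a : ι → ℤ} (ha : IsAmpleFree u S a) {ρ : Set ι}
    (hρ : IsMax S ρ) : ∃ β : ι → ℕ, (∀ i, β i = 0 ↔ i ∈ ρ) ∧ ∀ j, rp u ρ a j = β j := by
  obtain ⟨β, h1, h2⟩ := ha ρ hρ
  refine ⟨β, h1, fun j => ?_⟩
  rw [← num_rp hS hρ h2 j]
  exact rp_nat (fun l hl => (h1 l).2 hl) j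

theorem bound (hS : IsFan u S) {a : ι → ℤ} (ha : IsAmpleFree u S a) {ρ : Set ι}
    (hρ : IsMax S ρ) {j : ι} (hj : j ∉ ρ) :
    1 ≤ rp u ρ a j ∧ ∀ l ∈ ρ, -xx u ρ l j ≤ rp u ρ a j := by
  classical
  obtain ⟨β, h1, h2⟩ := ample_rp hS ha hρ
  have h3 : 1 ≤ rp u ρ a j := by
    rw [h2]
    have : β j ≠ 0 := fun h => hj ((h1 j).1 h)
    exact_mod_cast Nat.one_le_iff_ne_zero.2 this
  refine ⟨h3, fun l hl => ?_⟩
  by_cases hx : 0 ≤ xx u ρ l j
  · linarith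
  push Not at hx
  obtain ⟨ρ', hρ', hQ, hl'⟩ := hS.avoid (hS.face ρ hρ.1 {h | h ∈ ρ ∧ 0 < xx u ρ h j} fun h hh => hh.1)
    (ρ := l) (fun h => absurd h.2 (by linarith))
  obtain ⟨β', h4, h5⟩ := ample_rp hS ha hρ'
  have h6 : ∀ h, (β' h : ℝ) = β h + pr u (∑ g ∈ fs ρ, (β' g : ℝ) • Ed u ρ g) h := by
    intro h
    -- the difference is a form
    obtain ⟨b1, hb1, m1, hm1⟩ := ha ρ hρ
    obtain ⟨b2, hb2, m2, hm2⟩ := ha ρ' hρ'
    have e1 : ∀ h, (b1 h : ℝ) = β h := fun h => by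
      have h7 := h2 h
      rw [← num_rp hS hρ ⟨m1, hm1⟩ h] at h7
      rw [← h7]
      exact (rp_nat (fun l hl => (hb1 l).2 hl) h).symm
    have e2 : ∀ h, (b2 h : ℝ) = β' h := fun h => by
      have h7 := h5 h
      rw [← num_rp hS hρ' ⟨m2, hm2⟩ h] at h7
      rw [← h7]
      exact (rp_nat (fun l hl => (hb2 l).2 hl) h).symm
    have h8 : ∀ h, (β' h : ℝ) - β h = pr u (m2 - m1) h := fun h => by
      rw [pr_sub]
      have h9 := hm1 h
      have h10 := hm2 h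
      rw [Int.cast_natCast, e1] at h9
      rw [Int.cast_natCast, e2] at h10
      linarith
    have h9 : pr u (m2 - m1) h = pr u (∑ g ∈ fs ρ, (β' g : ℝ) • Ed u ρ g) h := by
      rw [pr_expand hS hρ (m2 - m1) h, pr_sum]
      refine Finset.sum_congr rfl fun g hg => ?_
      rw [pr_smul, ← h8, (h1 g).2 (mem_fs.1 hg), Nat.cast_zero, sub_zero]
      rfl
    rw [← h9, ← h8]
    ring
  have h7 := h6 j
  rw [pr_sum] at h7
  simp only [pr_smul] at h7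
  have h8 : ∑ g ∈ fs ρ, (β' g : ℝ) * pr u (Ed u ρ g) j ≤ β' l * xx u ρ l j := by
    rw [← Finset.add_sum_erase _ _ (mem_fs.2 hl)]
    have h9 : ∑ g ∈ (fs ρ).erase l, (β' g : ℝ) * pr u (Ed u ρ g) j ≤ 0 := by
      refine Finset.sum_nonpos fun g hg => ?_
      have hg' := mem_fs.1 (Finset.mem_of_mem_erase hg)
      by_cases h10 : 0 < xx u ρ g j
      · rw [(h4 g).2 (hQ ⟨hg', h10⟩)]
        simp
      · push Not at h10
        exact mul_nonpos_of_nonneg_of_nonpos (Nat.cast_nonneg _) h10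
    unfold xx
    linarith
  have h9 : (1 : ℝ) ≤ β' l := by
    have : β' l ≠ 0 := fun h => hl' ((h4 l).1 h)
    exact_mod_cast Nat.one_le_iff_ne_zero.2 this
  rw [h2]
  have h10 : (0 : ℝ) ≤ β' j := Nat.cast_nonneg _
  nlinarith

/-- The class `B` is the class `D` plus a sufficiently positive class. -/
def Big (u : ι → Fin N → ℤ) (S : Set (Set ι)) (D B : ι → ℤ) : Prop :=
  ∀ ρ, IsMax S ρ → ∀ j, j ∉ ρ → rp u ρ D j ≤ rp u ρ B j ∧
    ∀ i ∈ ρ, ∀ l ∈ ρ, rp u ρ D j + (xx u ρ i j - xx u ρ l j) ≤ rp u ρ B j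

theorem big (hS : IsFan u S) {k : ℕ} (hk : N + 1 ≤ k) (D : ι → ℤ) {A : Fin k → ι → ℤ}
    (hA : ∀ q, IsAmpleFree u S (A q)) : Big u S D fun i => D i + ∑ q, A q i - 1 := by
  classical
  intro ρ hρ j hj
  have hB : rp u ρ (fun i => D i + ∑ q, A q i - 1) j =
      rp u ρ D j + ∑ q, rp u ρ (A q) j - 1 + ∑ l ∈ fs ρ, xx u ρ l j := by
    unfold rp
    have h1 : ∀ l, (((D l + ∑ q, A q l - 1 : ℤ) : ℝ)) * xx u ρ l j =
        D l * xx u ρ l j + ∑ q, (A q l : ℝ) * xx u ρ l j - xx u ρ l j := fun l => by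
      push_cast
      rw [← Finset.sum_mul]
      ring
    simp only [h1, Finset.sum_sub_distrib, Finset.sum_add_distrib]
    rw [Finset.sum_comm]
    push_cast
    ring
  -- the largest bound
  have hMex : ∃ M : ℝ, 1 ≤ M ∧ (∀ l ∈ ρ, -xx u ρ l j ≤ M) ∧ ∀ q, M ≤ rp u ρ (A q) j := by
    let T : Finset ℝ := insert 1 ((fs ρ).image fun l => -xx u ρ l j)
    have hT : T.Nonempty := ⟨1, Finset.mem_insert_self _ _⟩
    refine ⟨T.max' hT, Finset.le_max' _ _ (Finset.mem_insert_self _ _), fun l hl => ?_, fun q => ?_⟩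
    · exact Finset.le_max' T _ (Finset.mem_insert_of_mem
        (Finset.mem_image_of_mem (fun l => -xx u ρ l j) (mem_fs.2 hl)))
    · have h1 := T.max'_mem hT
      rw [Finset.mem_insert] at h1
      rcases h1 with h1 | h1
      · rw [h1]; exact (bound hS (hA q) hρ hj).1
      · obtain ⟨l, hl, h2⟩ := Finset.mem_image.1 h1
        rw [← h2]
        exact (bound hS (hA q) hρ hj).2 l (mem_fs.1 hl)
  obtain ⟨M, hM1, hM2, hM3⟩ := hMex
  have hcard : (fs ρ).card = N := by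
    have h1 := (maxData hS hρ).1
    rw [← h1, Set.ncard_eq_toFinset_card' (s := ρ)]
    congr 1
    ext i
    simp [mem_fs]
  have hsum : (N + 1 : ℝ) * M ≤ ∑ q, rp u ρ (A q) j := by
    have h1 : ∑ _q : Fin k, M ≤ ∑ q, rp u ρ (A q) j := Finset.sum_le_sum fun q _ => hM3 q
    rw [Finset.sum_const, Finset.card_univ, Fintype.card_fin, nsmul_eq_mul] at h1
    have h2 : (N + 1 : ℝ) ≤ k := by exact_mod_cast hk
    nlinarith
  have hterm : ∀ l ∈ fs ρ, 0 ≤ M + xx u ρ l j := fun l hl => by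
    have := hM2 l (mem_fs.1 hl)
    linarith
  have hs2 : ∑ l ∈ fs ρ, (M + xx u ρ l j) = N * M + ∑ l ∈ fs ρ, xx u ρ l j := by
    rw [Finset.sum_add_distrib, Finset.sum_const, hcard, nsmul_eq_mul]
  refine ⟨?_, fun i hi l hl => ?_⟩
  · rw [hB]
    have := Finset.sum_nonneg hterm
    linarith
  · rw [hB]
    have h1 : M + xx u ρ i j ≤ ∑ l ∈ fs ρ, (M + xx u ρ l j) :=
      Finset.single_le_sum (f := fun l => M + xx u ρ l j) hterm (mem_fs.2 hi)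
    have h2 := hM2 l hl
    linarith

end H90.TV
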